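import Pool.Agent.GCH.PHI

/-!
# The choice of the parameters of a pass
-/

namespace Pool.GCH

open SimpleGraph Finset Classical

theorem num_params (D d : ℕ) (hD : 200000 ^ 20 ≤ D) (hd1 : d ≤ D) (hd2 : D ≤ d ^ 2) :
    ∃ P : Par, P.OK ∧ P.d = d ∧ (P.q : ℝ) ≤ 1001 * d / Real.log D ∧
      (P.q : ℝ) * P.x0 = 7 / 8 ∧ (P.q : ℝ) * P.x0 ^ 2 * P.d ≤ P.B / 2 ∧
      2 * Real.exp (-(P.l1 / 16) + P.l1 ^ 2 * (2 * P.κ) ^ 2 * P.d) +
      Real.exp (-(P.l2 * P.B / 2) + P.l2 ^ 2 * P.Gb ^ 2 * P.d +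
        P.l2 ^ 2 * (4 * P.κ ^ 2) ^ 2 * (P.d : ℝ) ^ 2) +
      (3 / 2 : ℝ) ^ P.d * P.ρ ≤ 1 / (D : ℝ) ^ 10 := by
  have hdbig : 200000 ^ 10 ≤ d := by
    by_contra h
    push Not at h
    have h1 : d ^ 2 < (200000 ^ 10) ^ 2 := Nat.pow_lt_pow_left h (by norm_num)
    rw [← pow_mul] at h1
    omega
  have hdR : (200000 : ℝ) ^ 10 ≤ (d : ℝ) := by exact_mod_cast hdbig
  have hd0 : (0 : ℝ) < d := lt_of_lt_of_le (by positivity) hdR
  have hDd : (D : ℝ) ≤ (d : ℝ) ^ 2 := by exact_mod_cast hd2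
  have hdD : (d : ℝ) ≤ D := by exact_mod_cast hd1
  have hD0 : (0 : ℝ) < D := lt_of_lt_of_le hd0 hdD
  obtain ⟨u, hu0, hu10⟩ : ∃ u : ℝ, 0 < u ∧ u ^ 10 = d := by
    refine ⟨(d : ℝ) ^ ((1 : ℝ) / 10), Real.rpow_pos_of_pos hd0 _, ?_⟩
    rw [← Real.rpow_natCast, ← Real.rpow_mul hd0.le]
    norm_num
  have hu : 200000 ≤ u := by
    by_contra h
    push Not at h
    have h1 : u ^ 10 < 200000 ^ 10 := pow_lt_pow_left₀ h hu0.le (by norm_num)
    rw [hu10] at h1
    linarith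
  set L := Real.log D with hL
  have hlogd : Real.log d = 10 * Real.log u := by
    rw [← hu10, Real.log_pow]
    norm_num
  have hLlo : 10 * Real.log u ≤ L := by
    rw [← hlogd]
    exact Real.log_le_log hd0 hdD
  have hLhi : L ≤ 20 * Real.log u := by
    have h1 : L ≤ Real.log ((d : ℝ) ^ 2) := Real.log_le_log hD0 hDd
    rw [Real.log_pow, hlogd] at h1
    push_cast at h1
    linarith
  have hlogu1 : 1 ≤ Real.log u := by
    rw [Real.le_log_iff_exp_le hu0]
    have := Real.exp_one_lt_d9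
    linarith
  have hloguu : Real.log u ≤ u := by
    have := Real.log_le_sub_one_of_pos hu0
    linarith
  have hL1 : 10 ≤ L := by linarith
  have hL0 : 0 < L := by linarith
  have hLd : L ≤ (d : ℝ) := by
    rw [← hu10]
    have h1 : L ≤ 20 * u := by linarith
    have h2 : 20 * u ≤ u ^ 10 := by
      have h3 : (20 : ℝ) ≤ u ^ 9 := by
        calc (20 : ℝ) ≤ u := by linarith
          _ = u ^ 1 := by ring
          _ ≤ u ^ 9 := pow_le_pow_right₀ (by linarith) (by norm_num)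
      calc 20 * u ≤ u ^ 9 * u := mul_le_mul_of_nonneg_right h3 hu0.le
        _ = u ^ 10 := by ring
    linarith
  set q := ⌈1000 * (d : ℝ) / L⌉₊ with hq
  have hq1 : 1000 * (d : ℝ) / L ≤ q := Nat.le_ceil _
  have hq2 : (q : ℝ) ≤ 1001 * d / L := by
    have h1 : (q : ℝ) < 1000 * (d : ℝ) / L + 1 := Nat.ceil_lt_add_one (by positivity)
    have h2 : 1 ≤ (d : ℝ) / L := by
      rw [one_le_div hL0]
      exact hLd
    have h3 : 1001 * (d : ℝ) / L = 1000 * d / L + d / L := by ring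
    linarith
  have hq0 : (0 : ℝ) < q := lt_of_lt_of_le (by positivity) hq1
  have hqL1 : 1000 * (d : ℝ) ≤ q * L := by
    rw [div_le_iff₀ hL0] at hq1
    exact hq1
  have hqL2 : (q : ℝ) * L ≤ 1001 * d := by
    rw [le_div_iff₀ hL0] at hq2
    exact hq2
  -- the parameters
  set κ : ℝ := 1 / u ^ 8 with hκ
  set x0 : ℝ := 7 / (8 * q) with hx0
  have hκ0 : 0 < κ := by positivity
  have hx00 : 0 < x0 := by positivity
  have hu1 : (1 : ℝ) ≤ u := by linarith
  have hκ1 : κ ≤ 1 / 2 := by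
    rw [hκ]
    apply one_div_le_one_div_of_le (by norm_num)
    calc (2 : ℝ) ≤ u := by linarith
      _ = u ^ 1 := by ring
      _ ≤ u ^ 8 := pow_le_pow_right₀ hu1 (by norm_num)
  have hκx : κ / x0 = 8 * q / (7 * u ^ 8) := by
    rw [hκ, hx0]
    field_simp
  have hκxu : u ≤ κ / x0 := by
    rw [hκx, le_div_iff₀ (by positivity)]
    -- u * 7 u^8 ≤ 8 q ; q ≥ 1000 u^10 / L ≥ 50 u^9
    have h1 : 50 * u ^ 9 ≤ q := by
      have h2 : 1000 * u ^ 10 ≤ q * (20 * u) := by
        rw [hu10]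
        refine hqL1.trans (mul_le_mul_of_nonneg_left ?_ hq0.le)
        linarith
      have h3 : (50 * u ^ 9) * (20 * u) ≤ q * (20 * u) := by
        calc (50 * u ^ 9) * (20 * u) = 1000 * u ^ 10 := by ring
          _ ≤ _ := h2
      exact le_of_mul_le_mul_right h3 (by positivity)
    have h4 : 0 < u ^ 9 := by positivity
    calc u * (7 * u ^ 8) = 7 * u ^ 9 := by ring
      _ ≤ 8 * (q : ℝ) := by linarith
  have hx0κ : x0 < κ := by
    have h1 : 1 < κ / x0 := by linarith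
    rwa [one_lt_div hx00] at h1
  set Lam := Real.log (2 * κ / x0) with hLam
  have hLam0 : 0 ≤ Lam := by
    apply Real.log_nonneg
    rw [one_le_div hx00]
    linarith
  have hLam1 : x0 * Real.exp Lam = 2 * κ := by
    rw [hLam, Real.exp_log (by positivity)]
    field_simp
  have hLamu : Lam ≤ u ^ 2 / 2 := by
    have h1 : 2 * κ / x0 ≤ u ^ 3 := by
      have h2 : 2 * κ / x0 = 2 * (8 * q / (7 * u ^ 8)) := by
        rw [← hκx]
        ring
      rw [h2]
      have h3 : (q : ℝ) ≤ 101 * u ^ 10 := by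
        rw [hu10]
        have h4 : (q : ℝ) * 10 ≤ 1001 * d :=
          (mul_le_mul_of_nonneg_left hL1 hq0.le).trans hqL2
        linarith
      have h5 : 2 * (8 * q / (7 * u ^ 8)) = 16 * q / (7 * u ^ 8) := by ring
      rw [h5, div_le_iff₀ (by positivity)]
      have h6 : (0 : ℝ) < u ^ 10 := by positivity
      calc 16 * (q : ℝ) ≤ 1616 * u ^ 10 := by linarith
        _ ≤ u * (7 * u ^ 10) := by nlinarith
        _ = u ^ 3 * (7 * u ^ 8) := by ring
    have h2 : Lam ≤ Real.log (u ^ 3) := Real.log_le_log (by positivity) h1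
    rw [Real.log_pow] at h2
    push_cast at h2
    nlinarith
  have hκd : (d : ℝ) * (2 * κ) = 2 * u ^ 2 := by
    rw [← hu10, hκ]
    field_simp
  have hdq : (d : ℝ) / q ≤ L / 1000 := by
    rw [div_le_div_iff₀ hq0 (by norm_num)]
    linarith
  have hdq' : L / 1001 ≤ (d : ℝ) / q := by
    rw [div_le_div_iff₀ (by norm_num) hq0]
    linarith
  set B : ℝ := 49 / 32 * ((d : ℝ) / q) with hB
  refine ⟨⟨q, d, κ, x0, u ^ 3 / 2, u / 5, Lam, 5 / u ^ 6, B, (10 / 17 : ℝ) ^ d⟩,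
    ?_, rfl, hq2, ?_, ?_, ?_⟩
  · constructor
    · exact hκ0
    · exact hκ1
    · exact hx00
    · exact hx0κ
    · positivity
    · change u ^ 3 / 2 * (2 * κ) ≤ 1
      have h1 : u ^ 3 / 2 * (2 * κ) = 1 / u ^ 5 := by
        rw [hκ]
        field_simp
      rw [h1, div_le_one (by positivity)]
      exact one_le_pow₀ hu1
    · positivity
    · change u / 5 * (5 / u ^ 6) ≤ 1
      have h1 : u / 5 * (5 / u ^ 6) = 1 / u ^ 5 := by
        field_simp
      rw [h1, div_le_one (by positivity)]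
      exact one_le_pow₀ hu1
    · change u / 5 * (4 * κ ^ 2) ≤ 1
      have h1 : u / 5 * (4 * κ ^ 2) = 4 / 5 * (1 / u ^ 15) := by
        rw [hκ]
        field_simp
      rw [h1]
      have h2 : 1 / u ^ 15 ≤ 1 := by
        rw [div_le_one (by positivity)]
        exact one_le_pow₀ hu1
      linarith
    · exact hLam0
    · change 2 * κ ≤ x0 * Real.exp Lam
      rw [hLam1]
    · change 2 * κ * (Lam + (d : ℝ) * (2 * κ)) ≤ 5 / u ^ 6
      rw [hκd]
      have h1 : 5 / u ^ 6 = 2 * κ * (5 / 2 * u ^ 2) := by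
        rw [hκ]
        field_simp
      rw [h1]
      refine mul_le_mul_of_nonneg_left ?_ (by positivity)
      linarith
    · change 2 * B ≤ 1 / 16 * Real.log (κ / x0)
      have h1 : Real.log u ≤ Real.log (κ / x0) := Real.log_le_log hu0 hκxu
      have h2 : 2 * B ≤ 49 / 16 * (L / 1000) := by
        rw [hB]
        linarith
      linarith
    · positivity
    · intro X hX
      change d < 2 * X at hX
      change 1 ≤ (3 : ℝ) ^ X * (10 / 17 : ℝ) ^ d
      have h1 : (10 / 17 : ℝ) ^ (2 * X) ≤ (10 / 17 : ℝ) ^ d :=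
        pow_le_pow_of_le_one (by norm_num) (by norm_num) hX.le
      have h2 : (1 : ℝ) ≤ (3 : ℝ) ^ X * (10 / 17 : ℝ) ^ (2 * X) := by
        rw [pow_mul, ← mul_pow]
        exact one_le_pow₀ (by norm_num)
      have h3 : (0 : ℝ) < 3 ^ X := by positivity
      nlinarith
  · change (q : ℝ) * x0 = 7 / 8
    rw [hx0]
    field_simp
  · change (q : ℝ) * x0 ^ 2 * (d : ℝ) ≤ B / 2
    refine le_of_eq ?_
    rw [hx0, hB]
    field_simp
    ring
  · change 2 * Real.exp (-(u ^ 3 / 2 / 16) + (u ^ 3 / 2) ^ 2 * (2 * κ) ^ 2 * (d : ℝ)) +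
      Real.exp (-(u / 5 * B / 2) + (u / 5) ^ 2 * (5 / u ^ 6) ^ 2 * (d : ℝ) +
        (u / 5) ^ 2 * (4 * κ ^ 2) ^ 2 * (d : ℝ) ^ 2) +
      (3 / 2 : ℝ) ^ d * (10 / 17 : ℝ) ^ d ≤ 1 / (D : ℝ) ^ 10
    have e1 : (u ^ 3 / 2) ^ 2 * (2 * κ) ^ 2 * (d : ℝ) = 1 := by
      rw [← hu10, hκ]
      field_simp
    have e2 : (u / 5) ^ 2 * (5 / u ^ 6) ^ 2 * (d : ℝ) = 1 := by
      rw [← hu10]
      field_simp
    have e3 : (u / 5) ^ 2 * (4 * κ ^ 2) ^ 2 * (d : ℝ) ^ 2 ≤ 1 := by
      have h1 : (u / 5) ^ 2 * (4 * κ ^ 2) ^ 2 * (d : ℝ) ^ 2 = 16 / 25 * (1 / u ^ 10) := by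
        rw [← hu10, hκ]
        field_simp
        norm_num
      rw [h1]
      have h2 : 1 / u ^ 10 ≤ 1 := by
        rw [div_le_one (by positivity)]
        exact one_le_pow₀ hu1
      linarith
    have hDinv : Real.exp (-(200 * Real.log u)) ≤ 1 / (D : ℝ) ^ 10 := by
      have h1 : (D : ℝ) ^ 10 = Real.exp (10 * L) := by
        rw [hL, ← Real.exp_log hD0, ← Real.exp_nat_mul, Real.exp_log hD0]
        norm_num
      rw [h1, one_div, ← Real.exp_neg, Real.exp_le_exp]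
      linarith
    refine le_trans ?_ hDinv
    have hexp2 : Real.exp (-(200 * Real.log u)) * Real.exp (-2) =
        Real.exp (-(200 * Real.log u) - 2) := by
      rw [← Real.exp_add]
      congr 1
    have hE2 : Real.exp (-2) ≤ 1 / 4 := by
      have h1 : (4 : ℝ) ≤ Real.exp 2 := by
        have h2 : (2 : ℝ) ≤ Real.exp 1 := by
          have := Real.exp_one_gt_d9
          linarith
        have h3 : Real.exp 2 = Real.exp 1 * Real.exp 1 := by
          rw [← Real.exp_add]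
          norm_num
        rw [h3]
        nlinarith
      rw [Real.exp_neg, ← one_div]
      exact one_div_le_one_div_of_le (by norm_num) h1
    have hE0 : 0 < Real.exp (-(200 * Real.log u)) := Real.exp_pos _
    have hq4 : Real.exp (-(200 * Real.log u) - 2) ≤ Real.exp (-(200 * Real.log u)) / 4 := by
      rw [← hexp2]
      nlinarith
    have t1 : Real.exp (-(u ^ 3 / 2 / 16) + (u ^ 3 / 2) ^ 2 * (2 * κ) ^ 2 * (d : ℝ)) ≤
        Real.exp (-(200 * Real.log u) - 2) := by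
      rw [Real.exp_le_exp, e1]
      have h1 : 200 * u + 3 ≤ u ^ 3 / 32 := by
        have h2 : (200000 : ℝ) * 200000 ≤ u * u := mul_le_mul hu hu (by norm_num) hu0.le
        have h3 : u ^ 3 = u * u * u := by ring
        nlinarith
      linarith
    have t2 : Real.exp (-(u / 5 * B / 2) + (u / 5) ^ 2 * (5 / u ^ 6) ^ 2 * (d : ℝ) +
        (u / 5) ^ 2 * (4 * κ ^ 2) ^ 2 * (d : ℝ) ^ 2) ≤ Real.exp (-(200 * Real.log u) - 2) := by
      rw [Real.exp_le_exp, e2]
      have h1 : Real.log u / 70 ≤ B := by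
        rw [hB]
        linarith
      have h2 : u / 5 * (Real.log u / 70) / 2 ≤ u / 5 * B / 2 := by
        have := mul_le_mul_of_nonneg_left h1 (show 0 ≤ u / 5 by positivity)
        linarith
      have h3 : (200 : ℝ) * Real.log u + 4 ≤ u / 5 * (Real.log u / 70) / 2 := by
        have h4 : (200000 : ℝ) * Real.log u ≤ u * Real.log u :=
          mul_le_mul_of_nonneg_right hu (by linarith)
        nlinarith
      linarith
    have t3 : (3 / 2 : ℝ) ^ d * (10 / 17 : ℝ) ^ d ≤ Real.exp (-(200 * Real.log u) - 2) := by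
      rw [← mul_pow]
      have h1 : (3 / 2 * (10 / 17) : ℝ) ≤ Real.exp (-(1 / 9)) := by
        have := Real.add_one_le_exp (-(1 / 9 : ℝ))
        norm_num at this ⊢
        linarith
      calc (3 / 2 * (10 / 17) : ℝ) ^ d ≤ (Real.exp (-(1 / 9))) ^ d :=
            pow_le_pow_left₀ (by norm_num) h1 d
        _ = Real.exp ((d : ℝ) * (-(1 / 9))) := by rw [Real.exp_nat_mul]
        _ ≤ Real.exp (-(200 * Real.log u) - 2) := by
            rw [Real.exp_le_exp, ← hu10]
            have h2 : 200 * u + 2 ≤ u ^ 10 / 9 := by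
              have h3 : (2000 : ℝ) ≤ u ^ 9 := by
                calc (2000 : ℝ) ≤ u := by linarith
                  _ = u ^ 1 := by ring
                  _ ≤ u ^ 9 := pow_le_pow_right₀ (by linarith) (by norm_num)
              have h4 : 2000 * u ≤ u ^ 9 * u := mul_le_mul_of_nonneg_right h3 hu0.le
              have h5 : u ^ 9 * u = u ^ 10 := by ring
              linarith
            linarith
    linarith

/-- One pass, with the parameters chosen. -/
theorem pass_num {V : Type*} [Fintype V] (D d m : ℕ) (hD : 200000 ^ 20 ≤ D) (hd1 : d ≤ D)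
    (hd2 : D ≤ d ^ 2) (G : SimpleGraph V) (r : V → ℕ) (hr : Function.Injective r) (hm : 4 ≤ m)
    (hG : HG G (2 * m)) (hn : Fintype.card V < D ^ m) (hd : ∀ v, (out G r v).card ≤ d) :
    ∃ q : ℕ, (q : ℝ) ≤ 1001 * d / Real.log D ∧
    ∃ (col : V → Option (Fin q)) (F : Finset V),
      (∀ v w c, G.Adj v w → col v = some c → col w ≠ some c) ∧
      (∀ p : ℕ → V, NB G p m → ¬ ∀ i ≤ m, p i ∈ F) ∧
      ∀ v, v ∉ F → 2 * ((out G r v).filter (fun z => col z = none ∧ z ∉ F)).card ≤ d := by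
  obtain ⟨P, hP, hPd, hPq, h1, h2, h3⟩ := num_params D d hD hd1 hd2
  subst hPd
  refine ⟨P.q, hPq, ?_⟩
  refine pass hP hr hm hG hd h1 h2 _ h3 ?_
  have hD1 : (1 : ℝ) ≤ D := by
    have : 1 ≤ D := le_trans (Nat.one_le_pow _ _ (by norm_num)) hD
    exact_mod_cast this
  have hD0 : (0 : ℝ) < D := by linarith
  rw [one_div, inv_pow, ← pow_mul, ← div_eq_mul_inv, div_lt_one (by positivity)]
  have h4 : ((Fintype.card V : ℕ) : ℝ) < (D : ℝ) ^ m := by exact_mod_cast hn
  calc ((Fintype.card V : ℕ) : ℝ) ^ 2 < ((D : ℝ) ^ m) ^ 2 :=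
        pow_lt_pow_left₀ h4 (by positivity) (by norm_num)
    _ = (D : ℝ) ^ (2 * m) := by rw [← pow_mul, mul_comm]
    _ ≤ (D : ℝ) ^ (10 * (m / 5 + 1)) := pow_le_pow_right₀ hD1 (by omega)

end Pool.GCH
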