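import Pool.Agent.GCH.DEG
import Pool.Agent.GCH.NUM

/-!
# Assembly: graphs of large girth with few vertices have small chromatic number
-/

namespace Pool.GCH

open SimpleGraph Finset Classical

variable {V : Type*} [Fintype V]

/-- The graph `H` restricted to a set of vertices. -/
def resG (H : SimpleGraph V) (U : V → Prop) : SimpleGraph V where
  Adj v w := H.Adj v w ∧ U v ∧ U w
  symm := ⟨fun _ _ h => ⟨h.1.symm, h.2.2, h.2.1⟩⟩
  loopless := ⟨fun _ h => h.1.ne rfl⟩

theorem greedy_out (H : SimpleGraph V) (r : V → ℕ) (hr : Function.Injective r) (d : ℕ)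
    (hd : ∀ v, (out H r v).card ≤ d) : H.Colorable (d + 1) := by
  obtain ⟨c, hc⟩ := greedy_colour H d _ univ rfl (by
    intro S _ hS
    obtain ⟨v, hv, hmax⟩ := Finset.exists_max_image S r hS
    refine ⟨v, hv, le_trans (Finset.card_le_card ?_) (hd v)⟩
    intro w hw
    rw [Finset.mem_filter] at hw
    rw [mem_out]
    refine ⟨hw.2, lt_of_le_of_ne (hmax w hw.1) ?_⟩
    intro h
    exact hw.2.ne (hr h).symm)
  exact ⟨Coloring.mk c fun {v w} h => hc v (Finset.mem_univ _) w (Finset.mem_univ _) h⟩

theorem recursion (D m : ℕ) (hD : 200000 ^ 20 ≤ D) (hm : 4 ≤ m) (G : SimpleGraph V)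
    (r : V → ℕ) (hr : Function.Injective r) (hG : HG G (2 * m)) (hn : Fintype.card V < D ^ m) :
    ∀ d : ℕ, d ≤ D → ∀ H : SimpleGraph V, H ≤ G → (∀ v, (out H r v).card ≤ d) →
      ∃ k : ℕ, (k : ℝ) ≤ 3000 * d / Real.log D + Real.sqrt D + 1 ∧ H.Colorable k := by
  have hDR : (200000 : ℝ) ^ 20 ≤ D := by exact_mod_cast hD
  have hD0 : (0 : ℝ) < D := lt_of_lt_of_le (by positivity) hDR
  have hD1 : (1 : ℝ) < D := by
    have h1 : (1 : ℝ) < 200000 ^ 20 := by norm_num
    linarith
  have hL0 : 0 < Real.log D := Real.log_pos hD1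
  intro d
  induction d using Nat.strong_induction_on with
  | _ d ih =>
  intro hdD H hH hd
  rcases Nat.lt_or_ge (d ^ 2) D with hlt | hge
  · refine ⟨d + 1, ?_, greedy_out H r hr d hd⟩
    have h1 : (d : ℝ) ≤ Real.sqrt D := by
      apply Real.le_sqrt_of_sq_le
      exact_mod_cast hlt.le
    have h2 : 0 ≤ 3000 * (d : ℝ) / Real.log D := by positivity
    push_cast
    linarith
  · obtain ⟨q, hq, col, F, h1, h2, h3⟩ := pass_num D d m hD hdD hge H r hr hm (hG.le hH) hn hd
    set H' := resG H (fun v => col v = none ∧ v ∉ F) with hH'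
    have hdpos : 0 < d := by
      rcases Nat.eq_zero_or_pos d with h0 | h0
      · subst h0
        have : 0 < D := by exact_mod_cast hD0
        simp at hge
        omega
      · exact h0
    have hout : ∀ v, (out H' r v).card ≤ d / 2 := by
      intro v
      by_cases hv : col v = none ∧ v ∉ F
      · have h4 : out H' r v ⊆ (out H r v).filter (fun z => col z = none ∧ z ∉ F) := by
          intro w hw
          rw [mem_out] at hw
          rw [Finset.mem_filter, mem_out]
          exact ⟨⟨hw.1.1, hw.2⟩, hw.1.2.2⟩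
        have h5 := Finset.card_le_card h4
        have h6 := h3 v hv.2
        omega
      · have h4 : out H' r v = ∅ := by
          rw [Finset.eq_empty_iff_forall_notMem]
          intro w hw
          rw [mem_out] at hw
          exact hv hw.1.2.1
        rw [h4]
        simp
    have hH'G : H' ≤ G := by
      intro v w h
      exact hH h.1
    obtain ⟨k', hk', ⟨c'⟩⟩ := ih (d / 2) (by omega) (by omega) H' hH'G hout
    obtain ⟨cF, hcF⟩ := greedy_colour H 1 _ F rfl fun S hS hSn => forest_of_no_nb h2 S hS hSn
    let c : V → Fin 2 ⊕ (Fin q ⊕ Fin k') := fun v =>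
      if v ∈ F then Sum.inl (cF v) else
        match col v with
        | some a => Sum.inr (Sum.inl a)
        | none => Sum.inr (Sum.inr (c' v))
    have hc : ∀ v w, H.Adj v w → c v ≠ c w := by
      intro v w hvw heq
      simp only [c] at heq
      by_cases hv : v ∈ F <;> by_cases hw : w ∈ F
      · rw [if_pos hv, if_pos hw] at heq
        exact hcF v hv w hw hvw (Sum.inl_injective heq)
      · rw [if_pos hv, if_neg hw] at heq
        cases hcw : col w <;> rw [hcw] at heq <;> simp at heq
      · rw [if_neg hv, if_pos hw] at heq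
        cases hcv : col v <;> rw [hcv] at heq <;> simp at heq
      · rw [if_neg hv, if_neg hw] at heq
        cases hcv : col v with
        | none =>
          cases hcw : col w with
          | none =>
            rw [hcv, hcw] at heq
            simp only [Sum.inr.injEq] at heq
            exact c'.valid (show H'.Adj v w from ⟨hvw, ⟨hcv, hv⟩, ⟨hcw, hw⟩⟩) heq
          | some b =>
            rw [hcv, hcw] at heq
            simp at heq
        | some a =>
          cases hcw : col w with
          | none =>
            rw [hcv, hcw] at heq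
            simp at heq
          | some b =>
            rw [hcv, hcw] at heq
            simp only [Sum.inr.injEq, Sum.inl.injEq] at heq
            subst heq
            exact h1 v w a hvw hcv hcw
    have hcol : H.Colorable (Fintype.card (Fin 2 ⊕ (Fin q ⊕ Fin k'))) :=
      (Coloring.mk c fun {v w} h => hc v w h).colorable
    refine ⟨_, ?_, hcol⟩
    simp only [Fintype.card_sum, Fintype.card_fin]
    push_cast
    have h4 : ((d / 2 : ℕ) : ℝ) ≤ (d : ℝ) / 2 := Nat.cast_div_le
    have h5 : 3000 * ((d / 2 : ℕ) : ℝ) / Real.log D ≤ 1500 * (d : ℝ) / Real.log D := by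
      apply div_le_div_of_nonneg_right _ hL0.le
      linarith
    -- `2 ≤ d / log D`
    have h6 : 2 ≤ (d : ℝ) / Real.log D := by
      rw [le_div_iff₀ hL0]
      have h7 : Real.sqrt D ≤ d := by
        rw [Real.sqrt_le_left (by positivity)]
        exact_mod_cast hge
      have h8 : Real.log D = 4 * Real.log (Real.sqrt (Real.sqrt D)) := by
        rw [Real.log_sqrt (Real.sqrt_nonneg _), Real.log_sqrt hD0.le]
        ring
      set y := Real.sqrt (Real.sqrt D) with hy
      have h9 : y * y = Real.sqrt D := Real.mul_self_sqrt (Real.sqrt_nonneg _)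
      have h10 : Real.sqrt D * Real.sqrt D = D := Real.mul_self_sqrt hD0.le
      have h11 : 0 < y := by
        rw [hy]
        exact Real.sqrt_pos.2 (Real.sqrt_pos.2 hD0)
      have h12 : Real.log y ≤ y - 1 := Real.log_le_sub_one_of_pos h11
      have h13 : 8 ≤ y := by
        rw [hy]
        apply Real.le_sqrt_of_sq_le
        apply Real.le_sqrt_of_sq_le
        have : (((8 : ℝ) ^ 2) ^ 2) ≤ 200000 ^ 20 := by norm_num
        linarith
      rw [h8]
      nlinarith
    have h7 : 1001 * (d : ℝ) / Real.log D + (d : ℝ) / Real.log D + 1500 * (d : ℝ) / Real.log D ≤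
        3000 * (d : ℝ) / Real.log D := by
      rw [← add_div, ← add_div]
      apply div_le_div_of_nonneg_right _ hL0.le
      have : (0 : ℝ) ≤ d := Nat.cast_nonneg d
      linarith
    linarith

/-- **Core theorem.** A graph on less than `D ^ m` vertices without cycles of length at most
`2 m` can be coloured with `3002 D / log D` colours. -/
theorem core (D m : ℕ) (hD : 200000 ^ 20 ≤ D) (hm : 4 ≤ m) (G : SimpleGraph V)
    (hG : HG G (2 * m)) (hn : Fintype.card V < D ^ m) :
    ∃ k : ℕ, (k : ℝ) ≤ 3002 * D / Real.log D ∧ G.Colorable k := by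
  obtain ⟨r, hr, hrd⟩ := exists_rank G D fun S hS => deg_of_card hG hn S hS
  obtain ⟨k, hk, hc⟩ := recursion D m hD hm G r hr hG hn D le_rfl G le_rfl hrd
  refine ⟨k, hk.trans ?_, hc⟩
  have hDR : (200000 : ℝ) ^ 20 ≤ D := by exact_mod_cast hD
  have hD0 : (0 : ℝ) < D := lt_of_lt_of_le (by positivity) hDR
  have hD1 : (1 : ℝ) < D := by
    have h1 : (1 : ℝ) < 200000 ^ 20 := by norm_num
    linarith
  have hL0 : 0 < Real.log D := Real.log_pos hD1
  have h1 : Real.sqrt D ≤ D / Real.log D := by
    rw [le_div_iff₀ hL0]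
    have h8 : Real.log D = 2 * Real.log (Real.sqrt D) := by
      rw [Real.log_sqrt hD0.le]
      ring
    set y := Real.sqrt D with hy
    have h9 : y * y = D := Real.mul_self_sqrt hD0.le
    have h11 : 0 < y := Real.sqrt_pos.2 hD0
    have h12 : Real.log y ≤ y / 2 := by
      have h13 : Real.log y = 2 * Real.log (Real.sqrt y) := by
        rw [Real.log_sqrt h11.le]
        ring
      have h14 : Real.sqrt y * Real.sqrt y = y := Real.mul_self_sqrt h11.le
      have h15 : Real.log (Real.sqrt y) ≤ Real.sqrt y - 1 :=
        Real.log_le_sub_one_of_pos (Real.sqrt_pos.2 h11)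
      nlinarith [sq_nonneg (Real.sqrt y - 2)]
    rw [h8]
    nlinarith
  have h2 : 1 ≤ Real.sqrt D := by
    rw [Real.one_le_sqrt]
    exact hD1.le
  have h3 : 3002 * (D : ℝ) / Real.log D = 3000 * D / Real.log D + 2 * (D / Real.log D) := by
    ring
  rw [h3]
  linarith

end Pool.GCH
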