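import Pool.Agent.GCH.NBW

/-!
# Degeneracy of graphs of large girth with few vertices, and greedy colouring
-/

namespace Pool.GCH

open SimpleGraph Finset Classical

variable {V : Type*} [Fintype V]

theorem exists_inj_fin {T : Finset V} {D : ℕ} (h : D ≤ T.card) :
    ∃ f : Fin D → V, Function.Injective f ∧ ∀ i, f i ∈ T := by
  refine ⟨fun i => (T.equivFin.symm (Fin.castLE h i)).1, ?_, fun i => (T.equivFin.symm _).2⟩
  intro i j hij
  have h1 := T.equivFin.symm.injective (Subtype.ext hij)
  exact Fin.castLE_injective h h1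

/-- If every vertex of `S` has more than `D` neighbours in `S`, then there is a tree of
non-backtracking walks in `S`. -/
theorem tree_walks (G : SimpleGraph V) (S : Finset V) (D : ℕ)
    (h : ∀ v ∈ S, D < (S.filter (G.Adj v)).card) (s : V) (hs : s ∈ S) :
    ∃ b : (ℕ → Fin D) → ℕ → V, (∀ x i, b x i ∈ S) ∧ (∀ x, b x 0 = s) ∧
      (∀ x L, NB G (b x) L) ∧
      ∀ x y m, (∀ i ≤ m, b x i = b y i) → ∀ i < m, x i = y i := by
  have h1 : ∀ a v : V, ∃ f : Fin D → V, v ∈ S → Function.Injective f ∧
      ∀ i, f i ∈ (S.filter (G.Adj v)).erase a := by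
    intro a v
    by_cases hv : v ∈ S
    · have h2 : D ≤ ((S.filter (G.Adj v)).erase a).card := by
        have := Finset.pred_card_le_card_erase (s := S.filter (G.Adj v)) (a := a)
        have := h v hv
        omega
      obtain ⟨f, hf⟩ := exists_inj_fin h2
      exact ⟨f, fun _ => hf⟩
    · exact ⟨fun _ => v, fun h => absurd h hv⟩
  choose nx hnx using h1
  let st : (ℕ → Fin D) → ℕ → V × V := fun x i =>
    Nat.rec (s, s) (fun i q => (q.2, nx q.1 q.2 (x i))) i
  have hst : ∀ x i, st x (i + 1) = ((st x i).2, nx (st x i).1 (st x i).2 (x i)) :=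
    fun x i => rfl
  have hS : ∀ x i, (st x i).2 ∈ S := by
    intro x i
    induction i with
    | zero => exact hs
    | succ i ih =>
      rw [hst]
      have := (hnx (st x i).1 (st x i).2 ih).2 (x i)
      simp only [Finset.mem_erase, Finset.mem_filter] at this
      exact this.2.1
  have hadj : ∀ x i, G.Adj (st x i).2 (st x (i + 1)).2 := by
    intro x i
    have := (hnx (st x i).1 (st x i).2 (hS x i)).2 (x i)
    simp only [Finset.mem_erase, Finset.mem_filter] at this
    exact this.2.2
  have hne : ∀ x i, (st x i).2 ≠ (st x (i + 2)).2 := by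
    intro x i
    have := (hnx (st x (i + 1)).1 (st x (i + 1)).2 (hS x (i + 1))).2 (x (i + 1))
    simp only [Finset.mem_erase, Finset.mem_filter] at this
    exact this.1.symm
  refine ⟨fun x i => (st x i).2, hS, fun x => rfl, fun x L => ⟨fun i _ => hadj x i,
    fun i _ => hne x i⟩, ?_⟩
  intro x y m hxy i hi
  have heq : st x i = st y i := by
    rcases Nat.eq_zero_or_pos i with h2 | h2
    · subst h2
      rfl
    · obtain ⟨k, rfl⟩ : ∃ k, i = k + 1 := ⟨i - 1, by omega⟩
      refine Prod.ext ?_ (hxy _ hi.le)
      exact hxy k (by omega)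
  have h3 := hxy (i + 1) hi
  simp only at h3
  rw [hst, hst, heq] at h3
  exact (hnx _ _ (hS y i)).1 h3

/-- In a graph with less than `D ^ m` vertices without closed non-backtracking walks of length
at most `2 m`, every set of vertices has a vertex with at most `D` neighbours in the set. -/
theorem deg_of_card {G : SimpleGraph V} {m D : ℕ} (h : HG G (2 * m))
    (hn : Fintype.card V < D ^ m) (S : Finset V) (hS : S.Nonempty) :
    ∃ v ∈ S, (S.filter (G.Adj v)).card ≤ D := by
  by_contra hcon
  push Not at hcon
  obtain ⟨s, hs⟩ := hS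
  obtain ⟨b, hb1, hb2, hb3, hb4⟩ := tree_walks G S D hcon s hs
  have hm : 0 < m := by
    rcases Nat.eq_zero_or_pos m with h0 | h0
    · subst h0
      have : 0 < Fintype.card V := Fintype.card_pos_iff.2 ⟨s⟩
      simp at hn
      omega
    · exact h0
  have hD : 0 < D := by
    rcases Nat.eq_zero_or_pos D with h0 | h0
    · subst h0
      rw [zero_pow (by omega)] at hn
      omega
    · exact h0
  let ex : (Fin m → Fin D) → ℕ → Fin D := fun x i =>
    if hi : i < m then x ⟨i, hi⟩ else ⟨0, hD⟩
  have hinj : Function.Injective (fun x : Fin m → Fin D => b (ex x) m) := by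
    intro x y hxy
    have h1 := (h.uniq m m (b (ex x)) (b (ex y)) (hb3 _ _) (hb3 _ _) (by omega)
      (by rw [hb2, hb2]) hxy).2
    have h2 := hb4 (ex x) (ex y) m h1
    funext i
    have h3 := h2 i.1 i.2
    simpa [ex, i.2] using h3
  have := Fintype.card_le_of_injective _ hinj
  simp only [Fintype.card_fun, Fintype.card_fin] at this
  omega

/-- A set containing no non-backtracking walk of length `m` is a forest. -/
theorem forest_of_no_nb {G : SimpleGraph V} {m : ℕ} {F : Finset V}
    (h : ∀ p : ℕ → V, NB G p m → ¬ ∀ i ≤ m, p i ∈ F) (S : Finset V) (hSF : S ⊆ F)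
    (hS : S.Nonempty) : ∃ v ∈ S, (S.filter (G.Adj v)).card ≤ 1 := by
  by_contra hcon
  push Not at hcon
  obtain ⟨s, hs⟩ := hS
  obtain ⟨b, hb1, hb2, hb3, hb4⟩ := tree_walks G S 1 hcon s hs
  exact h (b fun _ => 0) (hb3 _ _) fun i _ => hSF (hb1 _ i)

/-- A degenerate order. -/
theorem exists_rank (G : SimpleGraph V) (D : ℕ)
    (h : ∀ S : Finset V, S.Nonempty → ∃ v ∈ S, (S.filter (G.Adj v)).card ≤ D) :
    ∃ r : V → ℕ, Function.Injective r ∧
      ∀ v, (univ.filter (fun w => G.Adj v w ∧ r w < r v)).card ≤ D := by
  have key : ∀ (N : ℕ) (S : Finset V), S.card = N → ∃ r : V → ℕ,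
      (∀ v ∈ S, ∀ w ∈ S, r v = r w → v = w) ∧ (∀ v ∈ S, r v < S.card) ∧
      ∀ v ∈ S, (S.filter (fun w => G.Adj v w ∧ r w < r v)).card ≤ D := by
    intro N
    induction N with
    | zero =>
      intro S hS
      rw [Finset.card_eq_zero] at hS
      subst hS
      exact ⟨fun _ => 0, by simp, by simp, by simp⟩
    | succ N ih =>
      intro S hS
      have hSn : S.Nonempty := by
        rw [← Finset.card_pos]
        omega
      obtain ⟨v, hv, hvD⟩ := h S hSn
      have hc : (S.erase v).card = N := by
        rw [Finset.card_erase_of_mem hv]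
        omega
      obtain ⟨r, hr1, hr2, hr3⟩ := ih (S.erase v) hc
      have hr2' : ∀ w ∈ S, w ≠ v → r w < N := fun w hw hwv => by
        have := hr2 w (Finset.mem_erase.2 ⟨hwv, hw⟩)
        rwa [hc] at this
      refine ⟨fun w => if w = v then N else r w, ?_, ?_, ?_⟩
      · intro a ha b hb hab
        by_cases h1 : a = v <;> by_cases h2 : b = v
        · rw [h1, h2]
        · have := hr2' b hb h2
          simp only [h1, h2, if_true, if_false] at hab
          omega
        · have := hr2' a ha h1
          simp only [h1, h2, if_true, if_false] at hab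
          omega
        · simp only [h1, h2, if_false] at hab
          exact hr1 a (Finset.mem_erase.2 ⟨h1, ha⟩) b (Finset.mem_erase.2 ⟨h2, hb⟩) hab
      · intro a ha
        by_cases h1 : a = v
        · simp only [h1, if_true]
          omega
        · have := hr2' a ha h1
          simp only [h1, if_false]
          omega
      · intro a ha
        by_cases h1 : a = v
        · subst h1
          refine le_trans (Finset.card_le_card ?_) hvD
          intro w hw
          simp only [Finset.mem_filter] at hw ⊢
          exact ⟨hw.1, hw.2.1⟩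
        · refine le_trans (Finset.card_le_card ?_)
            (hr3 a (Finset.mem_erase.2 ⟨h1, ha⟩))
          intro w hw
          simp only [Finset.mem_filter, Finset.mem_erase, h1, if_false] at hw ⊢
          by_cases h2 : w = v
          · have := hr2' a ha h1
            simp only [h2, if_true] at hw
            omega
          · simp only [h2, if_false] at hw
            exact ⟨⟨h2, hw.1⟩, hw.2⟩
  obtain ⟨r, hr1, hr2, hr3⟩ := key _ univ rfl
  exact ⟨r, fun a b hab => hr1 a (mem_univ _) b (mem_univ _) hab, fun v => hr3 v (mem_univ _)⟩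

/-- Greedy colouring. -/
theorem greedy_colour (G : SimpleGraph V) (d : ℕ) :
    ∀ (N : ℕ) (U : Finset V), U.card = N →
      (∀ S ⊆ U, S.Nonempty → ∃ v ∈ S, (S.filter (G.Adj v)).card ≤ d) →
      ∃ c : V → Fin (d + 1), ∀ v ∈ U, ∀ w ∈ U, G.Adj v w → c v ≠ c w := by
  intro N
  induction N with
  | zero =>
    intro U hU _
    rw [Finset.card_eq_zero] at hU
    subst hU
    exact ⟨fun _ => 0, by simp⟩
  | succ N ih =>
    intro U hU h
    have hUn : U.Nonempty := by
      rw [← Finset.card_pos]
      omega
    obtain ⟨v, hv, hvd⟩ := h U subset_rfl hUn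
    obtain ⟨c, hc⟩ := ih (U.erase v) (by rw [Finset.card_erase_of_mem hv]; omega)
      (fun S hS => h S (hS.trans (Finset.erase_subset _ _)))
    obtain ⟨a, ha⟩ : ∃ a : Fin (d + 1), a ∉ (U.filter (G.Adj v)).image c := by
      by_contra hcon
      push Not at hcon
      have h1 : (univ : Finset (Fin (d + 1))) ⊆ (U.filter (G.Adj v)).image c :=
        fun a _ => hcon a
      have h2 := Finset.card_le_card h1
      have h3 := Finset.card_image_le (s := U.filter (G.Adj v)) (f := c)
      simp only [Finset.card_univ, Fintype.card_fin] at h2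
      omega
    have ha' : ∀ w ∈ U, G.Adj v w → c w ≠ a := by
      intro w hw hvw hcw
      apply ha
      rw [Finset.mem_image]
      exact ⟨w, Finset.mem_filter.2 ⟨hw, hvw⟩, hcw⟩
    refine ⟨fun w => if w = v then a else c w, ?_⟩
    intro x hx y hy hxy
    by_cases h1 : x = v <;> by_cases h2 : y = v
    · subst h1
      subst h2
      exact absurd hxy (G.loopless.irrefl _)
    · subst h1
      simp only [h2, if_true, if_false]
      exact (ha' y hy hxy).symm
    · subst h2
      simp only [h1, if_true, if_false]
      exact ha' x hx hxy.symm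
    · simp only [h1, h2, if_false]
      exact hc x (Finset.mem_erase.2 ⟨h1, hx⟩) y (Finset.mem_erase.2 ⟨h2, hy⟩) hxy

end Pool.GCH
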