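import Mathlib

/-!
# Exponential moments of one step of the colouring process
-/

namespace Pool.GCH

open Finset

/-- Weights of the outcomes: colour `c` has weight `p c`, no colour has the remaining weight. -/
def wt {q : ℕ} (p : Fin q → ℝ) : Option (Fin q) → ℝ
  | none => 1 - ∑ c, p c
  | some c => p c

/-- New colour weights after the outcome `o`. -/
noncomputable def upd {q : ℕ} (κ : ℝ) (y p : Fin q → ℝ) (o : Option (Fin q)) (c : Fin q) : ℝ :=
  if y c ≤ κ then (if o = some c then 0 else y c / (1 - p c)) else y c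

theorem exp_moment {ι : Type*} [Fintype ι] (w g : ι → ℝ) (G l : ℝ) (hw : ∀ o, 0 ≤ w o)
    (hw1 : ∑ o, w o = 1) (hg0 : ∀ o, 0 ≤ g o) (hgG : ∀ o, g o ≤ G) (hl : |l| * G ≤ 1) :
    ∑ o, w o * Real.exp (l * ((∑ o', w o' * g o') - g o)) ≤ Real.exp (l ^ 2 * G ^ 2) := by
  set E := ∑ o', w o' * g o' with hE
  have hE0 : 0 ≤ E := Finset.sum_nonneg fun o _ => mul_nonneg (hw o) (hg0 o)
  have hEG : E ≤ G := by
    calc E ≤ ∑ o, w o * G := Finset.sum_le_sum fun o _ => mul_le_mul_of_nonneg_left (hgG o) (hw o)
      _ = G := by rw [← Finset.sum_mul, hw1, one_mul]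
  have hx : ∀ o, |l * (E - g o)| ≤ 1 := by
    intro o
    rw [abs_mul]
    refine le_trans (mul_le_mul_of_nonneg_left ?_ (abs_nonneg l)) hl
    rw [abs_le]
    constructor
    · have := hgG o
      linarith
    · have := hg0 o
      linarith
  have hx2 : ∀ o, (l * (E - g o)) ^ 2 ≤ l ^ 2 * G ^ 2 := by
    intro o
    rw [mul_pow]
    refine mul_le_mul_of_nonneg_left ?_ (sq_nonneg l)
    rw [sq_le_sq]
    have hG : 0 ≤ G := hE0.trans hEG
    rw [abs_of_nonneg hG, abs_le]
    constructor
    · have := hgG o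
      linarith
    · have := hg0 o
      linarith
  have h1 : ∀ o, Real.exp (l * (E - g o)) ≤ 1 + l * (E - g o) + l ^ 2 * G ^ 2 := by
    intro o
    have := (abs_le.1 (Real.abs_exp_sub_one_sub_id_le (hx o))).2
    have := hx2 o
    linarith
  calc ∑ o, w o * Real.exp (l * (E - g o))
      ≤ ∑ o, w o * (1 + l * (E - g o) + l ^ 2 * G ^ 2) :=
        Finset.sum_le_sum fun o _ => mul_le_mul_of_nonneg_left (h1 o) (hw o)
    _ = ∑ o, ((1 + l * E + l ^ 2 * G ^ 2) * w o - l * (w o * g o)) :=
        Finset.sum_congr rfl fun o _ => by ring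
    _ = 1 + l ^ 2 * G ^ 2 := by
        rw [Finset.sum_sub_distrib, ← Finset.mul_sum, ← Finset.mul_sum, hw1, ← hE]
        ring
    _ ≤ Real.exp (l ^ 2 * G ^ 2) := by
        have := Real.add_one_le_exp (l ^ 2 * G ^ 2)
        linarith

theorem wt_nonneg {q : ℕ} {p : Fin q → ℝ} (hp : ∀ c, 0 ≤ p c) (hs : ∑ c, p c ≤ 1)
    (o : Option (Fin q)) : 0 ≤ wt p o := by
  cases o with
  | none => simp only [wt]; linarith
  | some c => exact hp c

theorem wt_sum {q : ℕ} (p : Fin q → ℝ) : ∑ o, wt p o = 1 := by
  rw [Fintype.sum_option]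
  simp [wt]

/-- The exponential moment of a weighted sum of the new colour weights. -/
theorem upd_moment {q : ℕ} (κ G l : ℝ) (y p R : Fin q → ℝ) (hp : ∀ c, 0 ≤ p c)
    (hp2 : ∀ c, p c ≤ 1 / 2) (hs : ∑ c, p c ≤ 1) (hy : ∀ c, 0 ≤ y c) (hR : ∀ c, 0 ≤ R c)
    (hG0 : 0 ≤ G) (hG : ∀ c, y c ≤ κ → y c * R c ≤ G / 2) (hl : |l| * G ≤ 1) :
    ∑ o, wt p o * Real.exp (l * ∑ c, upd κ y p o c * R c) ≤
      Real.exp (l * ∑ c, y c * R c + l ^ 2 * G ^ 2) := by
  let g : Option (Fin q) → ℝ := fun o =>
    match o with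
    | none => 0
    | some c => if y c ≤ κ then y c * R c / (1 - p c) else 0
  have hg0 : ∀ o, 0 ≤ g o := by
    intro o
    cases o with
    | none => exact le_rfl
    | some c =>
      simp only [g]
      split_ifs
      · have := hp2 c
        exact div_nonneg (mul_nonneg (hy c) (hR c)) (by linarith)
      · exact le_rfl
  have hgG : ∀ o, g o ≤ G := by
    intro o
    cases o with
    | none => exact hG0
    | some c =>
      simp only [g]
      split_ifs with h
      · have h1 := hp2 c
        rw [div_le_iff₀ (by linarith)]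
        have h2 := hG c h
        nlinarith
      · exact hG0
  have hid : ∀ o, ∑ c, upd κ y p o c * R c =
      ∑ c, y c * R c + ((∑ o', wt p o' * g o') - g o) := by
    intro o
    have h1 : ∀ c, upd κ y p o c * R c =
        y c * R c + p c * g (some c) - (if o = some c then g (some c) else 0) := by
      intro c
      have h2 := hp2 c
      have h3 : (1 : ℝ) - p c ≠ 0 := by
        intro h
        linarith
      simp only [upd, g]
      split_ifs
      · field_simp
        ring
      · field_simp
        ring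
      · ring
      · ring
    rw [Finset.sum_congr rfl fun c _ => h1 c, Finset.sum_sub_distrib, Finset.sum_add_distrib,
      Fintype.sum_option]
    have h4 : ∑ c, (if o = some c then g (some c) else 0) = g o := by
      cases o with
      | none => simp [g]
      | some c =>
        rw [Finset.sum_eq_single c]
        · simp
        · intro b _ hb
          rw [if_neg]
          intro h
          exact hb (Option.some.inj h).symm
        · intro h
          exact absurd (Finset.mem_univ c) h
    rw [h4]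
    simp only [wt, g]
    ring
  have h5 := exp_moment (wt p) g G l (wt_nonneg hp hs) (wt_sum p) hg0 hgG hl
  calc ∑ o, wt p o * Real.exp (l * ∑ c, upd κ y p o c * R c)
      = ∑ o, Real.exp (l * ∑ c, y c * R c) *
          (wt p o * Real.exp (l * ((∑ o', wt p o' * g o') - g o))) := by
        refine Finset.sum_congr rfl fun o _ => ?_
        rw [hid o, mul_add, Real.exp_add]
        ring
    _ ≤ Real.exp (l * ∑ c, y c * R c) * Real.exp (l ^ 2 * G ^ 2) := by
        rw [← Finset.mul_sum]
        exact mul_le_mul_of_nonneg_left h5 (Real.exp_pos _).le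
    _ = Real.exp (l * ∑ c, y c * R c + l ^ 2 * G ^ 2) := by rw [Real.exp_add]

/-- The moment of the number of uncoloured vertices. -/
theorem none_moment {q : ℕ} (p : Fin q → ℝ) (h : 1 - ∑ c, p c ≤ 1 / 4) :
    ∑ o, wt p o * (if o = none then (3 : ℝ) else 1) ≤ 3 / 2 := by
  rw [Fintype.sum_option]
  simp only [wt, if_true, reduceCtorEq, if_false, mul_one]
  linarith

theorem inv_one_sub_lower {p : ℝ} (h : p ≤ 1 / 2) : Real.exp p ≤ 1 / (1 - p) := by
  rw [le_div_iff₀ (by linarith)]
  have h1 := Real.add_one_le_exp (-p)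
  have h2 : Real.exp p * Real.exp (-p) = 1 := by
    rw [← Real.exp_add]
    simp
  have h3 := Real.exp_pos p
  nlinarith

theorem inv_one_sub_upper {p : ℝ} (h0 : 0 ≤ p) (h : p ≤ 1 / 2) :
    1 / (1 - p) ≤ Real.exp (2 * p) := by
  have h1 : 1 + 2 * p ≤ Real.exp (2 * p) := by
    have := Real.add_one_le_exp (2 * p)
    linarith
  refine le_trans ?_ h1
  rw [div_le_iff₀ (by linarith)]
  nlinarith

end Pool.GCH
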