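import Mathlib

/-!
# Non-backtracking sequences in graphs of large girth

`NB G p L`: the sequence `p 0, p 1, ..., p L` is a non-backtracking walk.  `HG G M`: there is no
closed non-backtracking walk of positive length at most `M`.  Large girth implies `HG`, and `HG`
implies that short non-backtracking walks are determined by their two ends.
-/

namespace Pool.GCH

open SimpleGraph

variable {V : Type*}

/-- `p 0, ..., p L` is a non-backtracking walk of length `L`. -/
def NB (G : SimpleGraph V) (p : ℕ → V) (L : ℕ) : Prop :=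
  (∀ i < L, G.Adj (p i) (p (i + 1))) ∧ ∀ i, i + 2 ≤ L → p i ≠ p (i + 2)

/-- There is no closed non-backtracking walk of positive length at most `M`. -/
def HG (G : SimpleGraph V) (M : ℕ) : Prop :=
  ∀ (p : ℕ → V) (L : ℕ), NB G p L → 0 < L → L ≤ M → p 0 ≠ p L

theorem NB.shift {G : SimpleGraph V} {p : ℕ → V} {L : ℕ} (h : NB G p L) (i L' : ℕ)
    (hi : i + L' ≤ L) : NB G (fun k => p (i + k)) L' :=
  ⟨fun k hk => h.1 (i + k) (by omega), fun k hk => h.2 (i + k) (by omega)⟩

theorem NB.mono {G : SimpleGraph V} {p : ℕ → V} {L L' : ℕ} (h : NB G p L) (hi : L' ≤ L) :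
    NB G p L' :=
  ⟨fun k hk => h.1 k (by omega), fun k hk => h.2 k (by omega)⟩

theorem NB.le {G H : SimpleGraph V} {p : ℕ → V} {L : ℕ} (h : NB G p L) (hGH : G ≤ H) :
    NB H p L :=
  ⟨fun k hk => hGH (h.1 k hk), h.2⟩

theorem HG.le {G H : SimpleGraph V} {M : ℕ} (h : HG H M) (hGH : G ≤ H) : HG G M :=
  fun p L hp hL hM => h p L (hp.le hGH) hL hM

theorem HG.mono {G : SimpleGraph V} {M M' : ℕ} (h : HG G M) (hM : M' ≤ M) : HG G M' :=
  fun p L hp hL hL' => h p L hp hL (hL'.trans hM)

/-- The walk given by a sequence. -/
def mkWalk (G : SimpleGraph V) (p : ℕ → V) :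
    ∀ L : ℕ, (∀ i < L, G.Adj (p i) (p (i + 1))) → G.Walk (p 0) (p L)
  | 0, _ => Walk.nil
  | L + 1, h => (mkWalk G p L fun i hi => h i (by omega)).concat (h L (by omega))

theorem mkWalk_length (G : SimpleGraph V) (p : ℕ → V) (L : ℕ)
    (h : ∀ i < L, G.Adj (p i) (p (i + 1))) : (mkWalk G p L h).length = L := by
  induction L with
  | zero => rfl
  | succ L ih => simp [mkWalk, ih]

theorem mkWalk_support (G : SimpleGraph V) (p : ℕ → V) (L : ℕ)
    (h : ∀ i < L, G.Adj (p i) (p (i + 1))) :
    (mkWalk G p L h).support = (List.range (L + 1)).map p := by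
  induction L with
  | zero => rfl
  | succ L ih =>
    rw [mkWalk, Walk.support_concat, ih, List.range_succ (n := L + 1)]
    simp

theorem mkWalk_edges (G : SimpleGraph V) (p : ℕ → V) (L : ℕ)
    (h : ∀ i < L, G.Adj (p i) (p (i + 1))) (e : Sym2 V) (he : e ∈ (mkWalk G p L h).edges) :
    ∃ i < L, e = s(p i, p (i + 1)) := by
  induction L with
  | zero => simp [mkWalk] at he
  | succ L ih =>
    rw [mkWalk, Walk.edges_concat] at he
    simp only [List.concat_eq_append, List.mem_append, List.mem_singleton] at he
    rcases he with he | he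
    · obtain ⟨i, hi, h2⟩ := ih _ he
      exact ⟨i, by omega, h2⟩
    · exact ⟨L, by omega, he⟩

/-- Large girth implies that there are no short closed non-backtracking walks. -/
theorem hg_of_egirth {G : SimpleGraph V} {M : ℕ} (h : ((M + 1 : ℕ) : ℕ∞) ≤ G.egirth) :
    HG G M := by
  intro p L
  induction L using Nat.strong_induction_on generalizing p with
  | _ L ih =>
  intro hp hL hM h0
  have hinj : ∀ i j, i < j → j ≤ L → ¬ (i = 0 ∧ j = L) → p i ≠ p j := by
    intro i j hij hj hne heq
    have := ih (j - i) (by omega) (fun k => p (i + k)) (hp.shift i (j - i) (by omega))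
      (by omega) (by omega)
    apply this
    simp only [Nat.add_zero]
    rw [heq]
    congr 1
    omega
  have hL3 : 3 ≤ L := by
    rcases Nat.lt_or_ge L 3 with h3 | h3
    · interval_cases L
      · exact absurd h0 (hp.1 0 (by omega)).ne
      · exact absurd h0 (hp.2 0 (by omega))
    · exact h3
  obtain ⟨K, rfl⟩ : ∃ K, L = K + 1 := ⟨L - 1, by omega⟩
  let q : ℕ → V := fun k => p (1 + k)
  have hq : ∀ i < K, G.Adj (q i) (q (i + 1)) := fun i hi => hp.1 (1 + i) (by omega)
  let w : G.Walk (q 0) (q K) := mkWalk G q K hq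
  have hqK : q K = p 0 := by
    rw [h0]
    change p (1 + K) = p (K + 1)
    congr 1
    omega
  have hadj : G.Adj (q K) (q 0) := by
    rw [hqK]
    exact hp.1 0 (by omega)
  have hpath : w.IsPath := by
    rw [Walk.isPath_def, mkWalk_support]
    refine List.Nodup.map_on ?_ List.nodup_range
    intro x hx y hy hxy
    simp only [List.mem_range] at hx hy
    rcases lt_trichotomy x y with h1 | h1 | h1
    · exact absurd hxy (hinj (1 + x) (1 + y) (by omega) (by omega) (by omega))
    · exact h1
    · exact absurd hxy.symm (hinj (1 + y) (1 + x) (by omega) (by omega) (by omega))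
  have hcyc : (Walk.cons hadj w).IsCycle := by
    rw [Walk.cons_isCycle_iff]
    refine ⟨hpath, ?_⟩
    intro he
    obtain ⟨i, hi, h2⟩ := mkWalk_edges G q K hq _ he
    rw [Sym2.eq_iff] at h2
    rcases h2 with ⟨h3, h4⟩ | ⟨h3, h4⟩
    · exact hinj (1 + i) (1 + K) (by omega) (by omega) (by omega) h3.symm
    · rcases Nat.eq_zero_or_pos i with h5 | h5
      · subst h5
        exact hinj (1 + (0 + 1)) (1 + K) (by omega) (by omega) (by omega) h3.symm
      · exact hinj (1 + 0) (1 + i) (by omega) (by omega) (by omega) h4
  have h5 := le_egirth.1 h _ _ hcyc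
  rw [Walk.length_cons, mkWalk_length] at h5
  have h6 : M + 1 ≤ K + 1 := by exact_mod_cast h5
  omega

/-- Short non-backtracking walks are determined by their ends. -/
theorem HG.uniq {G : SimpleGraph V} {M : ℕ} (h : HG G M) :
    ∀ (L L' : ℕ) (p q : ℕ → V), NB G p L → NB G q L' → L + L' ≤ M → p 0 = q 0 → p L = q L' →
      L = L' ∧ ∀ i ≤ L, p i = q i := by
  intro L
  induction L with
  | zero =>
    intro L' p q hp hq hM h0 h1
    rcases Nat.eq_zero_or_pos L' with h2 | h2
    · subst h2
      refine ⟨rfl, ?_⟩
      intro i hi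
      obtain rfl : i = 0 := by omega
      exact h0
    · exact absurd (h0.symm.trans h1) (h q L' hq h2 (by omega))
  | succ L ih =>
    intro L' p q hp hq hM h0 h1
    rcases Nat.eq_zero_or_pos L' with h2 | h2
    · subst h2
      exact absurd (h0.trans h1.symm) (h p (L + 1) hp (by omega) (by omega))
    · obtain ⟨K, rfl⟩ : ∃ K, L' = K + 1 := ⟨L' - 1, by omega⟩
      by_cases h3 : p 1 = q 1
      · obtain ⟨h4, h5⟩ := ih K (fun k => p (1 + k)) (fun k => q (1 + k))
          (hp.shift 1 L (by omega)) (hq.shift 1 K (by omega)) (by omega) h3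
          (by simpa [Nat.add_comm] using h1)
        refine ⟨by omega, ?_⟩
        intro i hi
        rcases Nat.eq_zero_or_pos i with h6 | h6
        · rw [h6, h0]
        · have := h5 (i - 1) (by omega)
          rwa [show 1 + (i - 1) = i by omega] at this
      · exfalso
        let r : ℕ → V := fun j => if j ≤ L + 1 then p (L + 1 - j) else q (j - (L + 1))
        have hr1 : ∀ j, j ≤ L + 1 → r j = p (L + 1 - j) := fun j hj => if_pos hj
        have hr2 : ∀ j, L + 1 ≤ j → r j = q (j - (L + 1)) := by
          intro j hj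
          rcases Nat.lt_or_ge (L + 1) j with h4 | h4
          · exact if_neg (by omega)
          · obtain rfl : j = L + 1 := by omega
            rw [hr1 _ le_rfl, Nat.sub_self, h0]
        have hr : NB G r (L + 1 + (K + 1)) := by
          constructor
          · intro i hi
            rcases Nat.lt_or_ge i (L + 1) with h4 | h4
            · rw [hr1 i (by omega), hr1 (i + 1) (by omega)]
              have := hp.1 (L + 1 - (i + 1)) (by omega)
              rw [show L + 1 - (i + 1) + 1 = L + 1 - i by omega] at this
              exact this.symm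
            · rw [hr2 i (by omega), hr2 (i + 1) (by omega)]
              have := hq.1 (i - (L + 1)) (by omega)
              rwa [show i - (L + 1) + 1 = i + 1 - (L + 1) by omega] at this
          · intro i hi
            rcases Nat.lt_or_ge i L with h4 | h4
            · rw [hr1 i (by omega), hr1 (i + 2) (by omega)]
              have := hp.2 (L + 1 - (i + 2)) (by omega)
              rw [show L + 1 - (i + 2) + 2 = L + 1 - i by omega] at this
              exact this.symm
            · rcases Nat.lt_or_ge L i with h5 | h5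
              · rw [hr2 i (by omega), hr2 (i + 2) (by omega)]
                have := hq.2 (i - (L + 1)) (by omega)
                rwa [show i - (L + 1) + 2 = i + 2 - (L + 1) by omega] at this
              · obtain rfl : i = L := by omega
                rw [hr1 i (by omega), hr2 (i + 2) (by omega)]
                rw [show i + 1 - i = 1 by omega, show i + 2 - (i + 1) = 1 by omega]
                exact h3
        refine h r _ hr (by omega) (by omega) ?_
        rw [hr1 0 (by omega), hr2 _ (by omega)]
        rw [show L + 1 - 0 = L + 1 by omega, show L + 1 + (K + 1) - (L + 1) = K + 1 by omega]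
        exact h1

/-- The sequence `a, b, c, c, ...`. -/
def seq3 (a b c : V) : ℕ → V
  | 0 => a
  | 1 => b
  | _ => c

theorem nb_two {G : SimpleGraph V} {a b c : V} (hab : G.Adj a b) (hbc : G.Adj b c)
    (hac : a ≠ c) : NB G (seq3 a b c) 2 := by
  constructor
  · intro i hi
    interval_cases i
    · exact hab
    · exact hbc
  · intro i hi
    obtain rfl : i = 0 := by omega
    exact hac

theorem nb_one {G : SimpleGraph V} {a b c : V} (hab : G.Adj a b) : NB G (seq3 a b c) 1 := by
  constructor
  · intro i hi
    interval_cases i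
    exact hab
  · intro i hi
    omega

theorem HG.no_tri {G : SimpleGraph V} {M : ℕ} (h : HG G M) (hM : 3 ≤ M) {a b c : V}
    (hab : G.Adj a b) (hbc : G.Adj b c) (hac : G.Adj a c) : False := by
  have := (h.uniq 2 1 (seq3 a b c) (seq3 a c c) (nb_two hab hbc hac.ne) (nb_one hac) (by omega)
    rfl rfl).1
  omega

theorem HG.no_c4 {G : SimpleGraph V} {M : ℕ} (h : HG G M) (hM : 4 ≤ M) {a b b' c : V}
    (hab : G.Adj a b) (hbc : G.Adj b c) (hab' : G.Adj a b') (hbc' : G.Adj b' c)
    (hac : a ≠ c) : b = b' :=
  (h.uniq 2 2 (seq3 a b c) (seq3 a b' c) (nb_two hab hbc hac) (nb_two hab' hbc' hac) (by omega)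
    rfl rfl).2 1 (by omega)

/-- Any walk can be replaced by a non-backtracking one. -/
theorem nb_of_walk {G : SimpleGraph V} {u v : V} (w : G.Walk u v) :
    ∃ (p : ℕ → V) (L : ℕ), NB G p L ∧ L ≤ w.length ∧ p 0 = u ∧ p L = v := by
  classical
  refine ⟨w.bypass.getVert, w.bypass.length, ⟨?_, ?_⟩, w.length_bypass_le_length, by simp, by simp⟩
  · intro i hi
    exact w.bypass.adj_getVert_succ hi
  · intro i hi heq
    have := w.bypass_isPath.getVert_injOn (show i ∈ {k | k ≤ w.bypass.length} by
      simp only [Set.mem_ofPred_eq]; omega) (show i + 2 ∈ {k | k ≤ w.bypass.length} by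
      simp only [Set.mem_ofPred_eq]; omega) heq
    omega

/-- Two vertices of a non-backtracking walk of length `L` at distance `j` along the walk are not
joined by a walk of length less than `j`, if `L` plus this length is small. -/
theorem HG.far {G : SimpleGraph V} {M : ℕ} (h : HG G M) {p : ℕ → V} {L : ℕ} (hp : NB G p L)
    {i j : ℕ} (hij : i ≤ j) (hj : j ≤ L) (w : G.Walk (p i) (p j)) (hw : w.length < j - i)
    (hM : L + w.length ≤ M) : False := by
  obtain ⟨q, K, hq, hK, h0, h1⟩ := nb_of_walk w
  have := (h.uniq (j - i) K (fun k => p (i + k)) q (hp.shift i (j - i) (by omega)) hq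
    (by omega) (by simpa using h0.symm) (by
      rw [show i + (j - i) = j by omega]
      exact h1.symm)).1
  omega

end Pool.GCH
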