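import Pool.Agent.GCH.ZST

/-!
# The global potential and one pass of the colouring algorithm
-/

namespace Pool.GCH

open SimpleGraph Finset Classical

variable {V : Type*} [Fintype V]

theorem exists_le_of_mean {ι : Type*} [Fintype ι] (w f : ι → ℝ) (A : ℝ) (hw : ∀ o, 0 ≤ w o)
    (hs : ∑ o, w o = 1) (h : ∑ o, w o * f o ≤ A) : ∃ o, 0 < w o ∧ f o ≤ A := by
  by_contra hcon
  push Not at hcon
  have h1 : ∃ o, 0 < w o := by
    by_contra h2
    push Not at h2
    have : ∑ o, w o ≤ 0 := Finset.sum_nonpos fun o _ => h2 o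
    linarith
  obtain ⟨o0, ho0⟩ := h1
  have h2 : ∑ o, w o * A < ∑ o, w o * f o := by
    refine Finset.sum_lt_sum (fun o _ => ?_) ⟨o0, Finset.mem_univ _, ?_⟩
    · rcases (hw o).eq_or_lt with h3 | h3
      · rw [← h3, zero_mul, zero_mul]
      · exact mul_le_mul_of_nonneg_left (hcon o h3).le (hw o)
    · exact mul_lt_mul_of_pos_left (hcon o0 ho0) ho0
  rw [← Finset.sum_mul, hs, one_mul] at h2
  linarith

/-- The global potential of a family of walks. -/
noncomputable def Phi {ι : Type*} (P : Par) (G : SimpleGraph V) (r : V → ℕ) (m : ℕ)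
    (R : Finset ι) (W : ι → ℕ → V) (t : ℕ) (s : St V P.q) : ℝ :=
  ∑ a ∈ R, ∏ j ∈ range (m / 5 + 1), ZZ P G r t s (W a (5 * j))

variable {P : Par} {G : SimpleGraph V} {r : V → ℕ} {t m : ℕ} {s : St V P.q} {z : V}

omit [Fintype V] in
theorem walk_of_aff {v : V} (h : aff G r z v) : ∃ w : G.Walk v z, w.length ≤ 2 := by
  rcases h with h | ⟨w, h1, h2⟩
  · exact ⟨Walk.cons h.1 Walk.nil, by simp⟩
  · exact ⟨Walk.cons h1.1 (Walk.cons h2.1 Walk.nil), by simp⟩

omit [Fintype V] in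
theorem aff_unique (hm : 4 ≤ m) (hG : HG G (2 * m)) {p : ℕ → V} (hp : NB G p m) {i j : ℕ}
    (hi : 5 * i ≤ m) (hj : 5 * j ≤ m) (h1 : aff G r z (p (5 * i))) (h2 : aff G r z (p (5 * j))) :
    i = j := by
  have key : ∀ i j, i < j → 5 * j ≤ m → aff G r z (p (5 * i)) → aff G r z (p (5 * j)) →
      False := by
    intro i j hij hj h1 h2
    obtain ⟨w1, hw1⟩ := walk_of_aff h1
    obtain ⟨w2, hw2⟩ := walk_of_aff h2
    have hlen : (w1.append w2.reverse).length ≤ 4 := by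
      rw [Walk.length_append, Walk.length_reverse]
      omega
    exact hG.far hp (by omega) hj (w1.append w2.reverse) (by omega) (by omega)
  rcases lt_trichotomy i j with h | h | h
  · exact (key i j h hj h1 h2).elim
  · exact h
  · exact (key j i h hi h2 h1).elim

theorem prod_step (hP : P.OK) (hr : Function.Injective r) (hI : Inv P G r t s) (hz : r z = t)
    (hm : 4 ≤ m) (hG : HG G (2 * m)) (hd : ∀ v, (out G r v).card ≤ P.d) {p : ℕ → V}
    (hp : NB G p m) :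
    ∑ o, wt (pz P s z) o * ∏ j ∈ range (m / 5 + 1),
      ZZ P G r (t + 1) (nxt P G r s z o) (p (5 * j)) ≤
      ∏ j ∈ range (m / 5 + 1), ZZ P G r t s (p (5 * j)) := by
  have hw1 := wt_sum (pz P s z)
  have hG4 : HG G 4 := hG.mono (by omega)
  by_cases h : ∃ j ∈ range (m / 5 + 1), aff G r z (p (5 * j))
  · obtain ⟨j0, hj0, haff⟩ := h
    have hj0m : 5 * j0 ≤ m := by
      rw [Finset.mem_range] at hj0
      omega
    have h1 : ∀ o, ∏ j ∈ (range (m / 5 + 1)).erase j0,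
        ZZ P G r (t + 1) (nxt P G r s z o) (p (5 * j)) =
        ∏ j ∈ (range (m / 5 + 1)).erase j0, ZZ P G r t s (p (5 * j)) := by
      intro o
      refine Finset.prod_congr rfl fun j hj => ?_
      rw [Finset.mem_erase, Finset.mem_range] at hj
      refine ZZ_of_not_aff hr hz ?_ o
      intro h2
      exact hj.1 (aff_unique hm hG hp (by omega) hj0m h2 haff)
    calc _ = ∑ o, (wt (pz P s z) o * ZZ P G r (t + 1) (nxt P G r s z o) (p (5 * j0))) *
          ∏ j ∈ (range (m / 5 + 1)).erase j0, ZZ P G r t s (p (5 * j)) := by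
          refine Finset.sum_congr rfl fun o _ => ?_
          rw [← Finset.mul_prod_erase _ _ hj0, h1 o]
          ring
      _ ≤ ZZ P G r t s (p (5 * j0)) *
          ∏ j ∈ (range (m / 5 + 1)).erase j0, ZZ P G r t s (p (5 * j)) := by
          rw [← Finset.sum_mul]
          exact mul_le_mul_of_nonneg_right (ZZ_step hP hr hI hz hG4 hd _)
            (Finset.prod_nonneg fun j _ => ZZ_nonneg hP _)
      _ = _ := Finset.mul_prod_erase _ (fun j => ZZ P G r t s (p (5 * j))) hj0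
  · push Not at h
    refine le_of_eq ?_
    calc _ = ∑ o, wt (pz P s z) o * ∏ j ∈ range (m / 5 + 1), ZZ P G r t s (p (5 * j)) := by
          refine Finset.sum_congr rfl fun o _ => ?_
          congr 1
          refine Finset.prod_congr rfl fun j hj => ?_
          exact ZZ_of_not_aff hr hz (h j hj) o
      _ = _ := by rw [← Finset.sum_mul, hw1, one_mul]

theorem Phi_step {ι : Type*} (hP : P.OK) (hr : Function.Injective r) (hI : Inv P G r t s)
    (hz : r z = t) (hm : 4 ≤ m) (hG : HG G (2 * m)) (hd : ∀ v, (out G r v).card ≤ P.d)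
    (R : Finset ι) (W : ι → ℕ → V) (hW : ∀ a ∈ R, NB G (W a) m) :
    ∃ s' : St V P.q, Inv P G r (t + 1) s' ∧
      Phi P G r m R W (t + 1) s' ≤ Phi P G r m R W t s := by
  have h1 : ∑ o, wt (pz P s z) o * Phi P G r m R W (t + 1) (nxt P G r s z o) ≤
      Phi P G r m R W t s := by
    unfold Phi
    simp only [Finset.mul_sum]
    rw [Finset.sum_comm]
    exact Finset.sum_le_sum fun a ha => prod_step hP hr hI hz hm hG hd (hW a ha)
  obtain ⟨o, ho, ho2⟩ := exists_le_of_mean _ _ _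
    (wt_nonneg (fun c => pz_nonneg hI c) (pz_sum hI)) (wt_sum _) h1
  exact ⟨_, hI.step hP hr hz o ho, ho2⟩

theorem unp_succ_of_no {v : V} (h : ∀ z, r z ≠ t) : unp G r (t + 1) v = unp G r t v := by
  ext w
  rw [mem_unp, mem_unp]
  have := h w
  constructor
  · rintro ⟨h1, h2⟩
    exact ⟨h1, by omega⟩
  · rintro ⟨h1, h2⟩
    exact ⟨h1, by omega⟩

theorem Inv.skip (hI : Inv P G r t s) (h : ∀ z, r z ≠ t) : Inv P G r (t + 1) s := by
  have h1 : ∀ z, r z < t + 1 ↔ r z < t := by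
    intro z
    have := h z
    omega
  refine ⟨hI.y0, hI.y1, hI.s0, hI.ylo, hI.yhi, ?_, ?_, ?_, ?_⟩
  · intro z v c hz
    exact hI.blk z v c ((h1 z).1 hz)
  · intro v
    rw [hI.xc v]
    simp only [h1]
  · intro z
    rw [hI.fg z, h1]
  · intro z z' c hz hz'
    exact hI.pr z z' c ((h1 z).1 hz) ((h1 z').1 hz')

theorem Phi_skip {ι : Type*} (h : ∀ z, r z ≠ t) (R : Finset ι) (W : ι → ℕ → V) :
    Phi P G r m R W (t + 1) s = Phi P G r m R W t s := by
  unfold Phi ZZ Psi k1 k2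
  simp only [unp_succ_of_no h]

/-- The initial state. -/
noncomputable def init (V : Type*) (P : Par) : St V P.q where
  Y := fun _ _ => P.x0
  S := fun _ _ => 0
  X := fun _ => 0
  col := fun _ => none
  F := ∅

theorem Inv_init (hP : P.OK) : Inv P G r 0 (init V P) := by
  have h1 := hP.x00
  have h2 := hP.x0κ
  refine ⟨fun _ _ => h1.le, fun _ _ => ?_, fun _ _ => le_rfl, fun _ _ _ => ?_, fun _ _ => ?_,
    fun _ _ _ h => ?_, fun _ => ?_, fun _ => ?_, fun _ _ _ h => ?_⟩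
  · simp only [init]
    linarith
  · simp [init]
  · simp [init]
  · omega
  · simp [init]
  · simp [init]
  · omega

theorem process {ι : Type*} (hP : P.OK) (hr : Function.Injective r) (hm : 4 ≤ m)
    (hG : HG G (2 * m)) (hd : ∀ v, (out G r v).card ≤ P.d)
    (R : Finset ι) (W : ι → ℕ → V) (hW : ∀ a ∈ R, NB G (W a) m) (t : ℕ) :
    ∃ s : St V P.q, Inv P G r t s ∧
      Phi P G r m R W t s ≤ Phi P G r m R W 0 (init V P) := by
  induction t with
  | zero => exact ⟨_, Inv_init hP, le_rfl⟩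
  | succ t ih =>
    obtain ⟨s, hI, hs⟩ := ih
    by_cases h : ∃ z, r z = t
    · obtain ⟨z, hz⟩ := h
      obtain ⟨s', h1, h2⟩ := Phi_step hP hr hI hz hm hG hd R W hW
      exact ⟨s', h1, h2.trans hs⟩
    · push Not at h
      exact ⟨s, hI.skip h, (Phi_skip h R W).le.trans hs⟩

theorem ZZ_init (hP : P.OK) (hd : ∀ v, (out G r v).card ≤ P.d)
    (hq : (P.q : ℝ) * P.x0 = 7 / 8) (hB : (P.q : ℝ) * P.x0 ^ 2 * P.d ≤ P.B / 2) (v : V) :
    ZZ P G r 0 (init V P) v ≤
      2 * Real.exp (-(P.l1 / 16) + P.l1 ^ 2 * (2 * P.κ) ^ 2 * P.d) +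
      Real.exp (-(P.l2 * P.B / 2) + P.l2 ^ 2 * P.Gb ^ 2 * P.d +
        P.l2 ^ 2 * (4 * P.κ ^ 2) ^ 2 * (P.d : ℝ) ^ 2) +
      (3 / 2 : ℝ) ^ P.d * P.ρ := by
  have hk : ∀ w, (unp G r 0 w).card ≤ P.d := fun w =>
    (Finset.card_filter_le _ _).trans (hd w)
  have hk1 : (k1 G r 0 v : ℝ) ≤ P.d := by
    unfold k1
    exact_mod_cast hk v
  have hk2 : (k2 G r 0 v : ℝ) ≤ (P.d : ℝ) ^ 2 := by
    have : k2 G r 0 v ≤ P.d ^ 2 := by
      unfold k2
      calc ∑ w ∈ out G r v, (unp G r 0 w).card ≤ ∑ w ∈ out G r v, P.d :=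
            Finset.sum_le_sum fun w _ => hk w
        _ = (out G r v).card * P.d := by rw [Finset.sum_const, smul_eq_mul]
        _ ≤ P.d * P.d := Nat.mul_le_mul_right _ (hd v)
        _ = P.d ^ 2 := by ring
    exact_mod_cast this
  have hmass : mass (init V P) v = 7 / 8 := by
    simp only [mass, init, Finset.sum_const, Finset.card_univ, Fintype.card_fin, nsmul_eq_mul]
    exact hq
  have hPsi : Psi G r 0 (init V P) v ≤ P.B / 2 := by
    refine le_trans ?_ hB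
    simp only [Psi, init, Finset.sum_const, Finset.card_univ, Fintype.card_fin, nsmul_eq_mul,
      zero_add]
    have h1 : ((unp G r 0 v).card : ℝ) ≤ P.d := hk1
    have h2 := hP.x00
    have h3 : (0 : ℝ) ≤ (P.q : ℝ) * P.x0 ^ 2 := by positivity
    calc (P.q : ℝ) * (P.x0 * (((unp G r 0 v).card : ℝ) * P.x0))
        = (P.q : ℝ) * P.x0 ^ 2 * ((unp G r 0 v).card : ℝ) := by ring
      _ ≤ (P.q : ℝ) * P.x0 ^ 2 * P.d := mul_le_mul_of_nonneg_left h1 h3
  have hl1 := hP.l10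
  have hl2 := hP.l20
  unfold ZZ
  rw [hmass]
  have e1 : Real.exp (P.l1 * (7 / 8 - 15 / 16) +
      P.l1 ^ 2 * (2 * P.κ) ^ 2 * (k1 G r 0 v : ℝ)) ≤
      Real.exp (-(P.l1 / 16) + P.l1 ^ 2 * (2 * P.κ) ^ 2 * P.d) := by
    rw [Real.exp_le_exp]
    have := mul_le_mul_of_nonneg_left hk1 (show 0 ≤ P.l1 ^ 2 * (2 * P.κ) ^ 2 by positivity)
    linarith
  have e2 : Real.exp (P.l1 * (13 / 16 - 7 / 8) +
      P.l1 ^ 2 * (2 * P.κ) ^ 2 * (k1 G r 0 v : ℝ)) ≤
      Real.exp (-(P.l1 / 16) + P.l1 ^ 2 * (2 * P.κ) ^ 2 * P.d) := by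
    rw [Real.exp_le_exp]
    have := mul_le_mul_of_nonneg_left hk1 (show 0 ≤ P.l1 ^ 2 * (2 * P.κ) ^ 2 by positivity)
    linarith
  have e3 : Real.exp (P.l2 * (Psi G r 0 (init V P) v - P.B) +
      P.l2 ^ 2 * P.Gb ^ 2 * (k1 G r 0 v : ℝ) +
      P.l2 ^ 2 * (4 * P.κ ^ 2) ^ 2 * (k2 G r 0 v : ℝ)) ≤
      Real.exp (-(P.l2 * P.B / 2) + P.l2 ^ 2 * P.Gb ^ 2 * P.d +
        P.l2 ^ 2 * (4 * P.κ ^ 2) ^ 2 * (P.d : ℝ) ^ 2) := by
    rw [Real.exp_le_exp]
    have h1 := mul_le_mul_of_nonneg_left hk1 (show 0 ≤ P.l2 ^ 2 * P.Gb ^ 2 by positivity)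
    have h2 := mul_le_mul_of_nonneg_left hk2
      (show 0 ≤ P.l2 ^ 2 * (4 * P.κ ^ 2) ^ 2 by positivity)
    have h3 := mul_le_mul_of_nonneg_left hPsi hl2
    nlinarith
  have e4 : (3 : ℝ) ^ (init V P).X v * (3 / 2 : ℝ) ^ (k1 G r 0 v) * P.ρ ≤
      (3 / 2 : ℝ) ^ P.d * P.ρ := by
    refine mul_le_mul_of_nonneg_right ?_ hP.ρ0
    simp only [init, pow_zero, one_mul]
    refine pow_le_pow_right₀ (by norm_num) ?_
    exact hk v
  linarith

/-- One pass of the colouring algorithm. -/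
theorem pass (hP : P.OK) (hr : Function.Injective r) (hm : 4 ≤ m) (hG : HG G (2 * m))
    (hd : ∀ v, (out G r v).card ≤ P.d) (hq : (P.q : ℝ) * P.x0 = 7 / 8)
    (hB : (P.q : ℝ) * P.x0 ^ 2 * P.d ≤ P.B / 2) (p0 : ℝ)
    (hp0 : 2 * Real.exp (-(P.l1 / 16) + P.l1 ^ 2 * (2 * P.κ) ^ 2 * P.d) +
      Real.exp (-(P.l2 * P.B / 2) + P.l2 ^ 2 * P.Gb ^ 2 * P.d +
        P.l2 ^ 2 * (4 * P.κ ^ 2) ^ 2 * (P.d : ℝ) ^ 2) +
      (3 / 2 : ℝ) ^ P.d * P.ρ ≤ p0)
    (hn : ((Fintype.card V : ℕ) : ℝ) ^ 2 * p0 ^ (m / 5 + 1) < 1) :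
    ∃ (col : V → Option (Fin P.q)) (F : Finset V),
      (∀ v w c, G.Adj v w → col v = some c → col w ≠ some c) ∧
      (∀ p : ℕ → V, NB G p m → ¬ ∀ i ≤ m, p i ∈ F) ∧
      ∀ v, v ∉ F → 2 * ((out G r v).filter (fun z => col z = none ∧ z ∉ F)).card ≤ P.d := by
  let R : Finset (V × V) := univ.filter
    (fun ab => ∃ p : ℕ → V, NB G p m ∧ p 0 = ab.1 ∧ p m = ab.2)
  have hex : ∀ ab : V × V, ∃ p : ℕ → V, ab ∈ R → NB G p m ∧ p 0 = ab.1 ∧ p m = ab.2 := by
    intro ab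
    by_cases h : ab ∈ R
    · obtain ⟨p, hp⟩ := (Finset.mem_filter.1 h).2
      exact ⟨p, fun _ => hp⟩
    · exact ⟨fun _ => ab.1, fun h' => absurd h' h⟩
  choose W hW using hex
  obtain ⟨T, hT⟩ : ∃ T, ∀ v, r v < T := by
    refine ⟨(univ.sup r) + 1, fun v => ?_⟩
    have := Finset.le_sup (f := r) (Finset.mem_univ v)
    omega
  obtain ⟨s, hI, hs⟩ := process hP hr hm hG hd R W (fun a ha => (hW a ha).1) T
  have hp00 : 0 ≤ p0 := by
    refine le_trans ?_ hp0
    have := hP.ρ0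
    positivity
  have hlt : Phi P G r m R W T s < 1 := by
    refine lt_of_le_of_lt (hs.trans ?_) hn
    unfold Phi
    calc ∑ a ∈ R, ∏ j ∈ range (m / 5 + 1), ZZ P G r 0 (init V P) (W a (5 * j))
        ≤ ∑ a ∈ R, ∏ _j ∈ range (m / 5 + 1), p0 := by
          refine Finset.sum_le_sum fun a _ => Finset.prod_le_prod (fun j _ => ZZ_nonneg hP _)
            fun j _ => ?_
          exact (ZZ_init hP hd hq hB _).trans hp0
      _ = (R.card : ℝ) * p0 ^ (m / 5 + 1) := by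
          rw [Finset.prod_const, Finset.card_range, Finset.sum_const, nsmul_eq_mul]
      _ ≤ ((Fintype.card V : ℕ) : ℝ) ^ 2 * p0 ^ (m / 5 + 1) := by
          refine mul_le_mul_of_nonneg_right ?_ (by positivity)
          have h1 : R.card ≤ Fintype.card V ^ 2 := by
            refine (Finset.card_filter_le _ _).trans ?_
            rw [Finset.card_univ, Fintype.card_prod, sq]
          exact_mod_cast h1
  refine ⟨s.col, s.F, ?_, ?_, ?_⟩
  · intro v w c hadj h1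
    exact hI.pr v w c (hT v) (hT w) hadj h1
  · intro p hp hpF
    have hR : (p 0, p m) ∈ R := Finset.mem_filter.2 ⟨Finset.mem_univ _, p, hp, rfl, rfl⟩
    obtain ⟨h1, h2, h3⟩ := hW _ hR
    have h4 := (hG.uniq m m (W (p 0, p m)) p h1 hp (by omega) h2 h3).2
    have h5 : ∀ j ∈ range (m / 5 + 1), 1 ≤ ZZ P G r T s (W (p 0, p m) (5 * j)) := by
      intro j hj
      rw [Finset.mem_range] at hj
      rw [h4 (5 * j) (by omega)]
      have h6 := (hI.fg _).1 (hpF (5 * j) (by omega))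
      exact one_le_ZZ hP hI h6.2
    have h6 : 1 ≤ ∏ j ∈ range (m / 5 + 1), ZZ P G r T s (W (p 0, p m) (5 * j)) := by
      calc (1 : ℝ) = ∏ _j ∈ range (m / 5 + 1), (1 : ℝ) := by simp
        _ ≤ _ := Finset.prod_le_prod (fun _ _ => zero_le_one) h5
    have h7 : ∏ j ∈ range (m / 5 + 1), ZZ P G r T s (W (p 0, p m) (5 * j)) ≤
        Phi P G r m R W T s := by
      unfold Phi
      exact Finset.single_le_sum (f := fun a => ∏ j ∈ range (m / 5 + 1),
        ZZ P G r T s (W a (5 * j))) (fun a _ => Finset.prod_nonneg fun j _ => ZZ_nonneg hP _) hR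
    linarith
  · intro v hv
    have h1 : good P s v := by
      by_contra h
      exact hv ((hI.fg v).2 ⟨hT v, h⟩)
    have h2 := h1.2.2.2
    rw [hI.xc v] at h2
    have h3 : (out G r v).filter (fun z => s.col z = none ∧ z ∉ s.F) =
        (out G r v).filter (fun z => r z < T ∧ s.col z = none ∧ z ∉ s.F) := by
      refine Finset.filter_congr fun z _ => ?_
      simp [hT z]
    rw [h3]
    exact h2

end Pool.GCH
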