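import Pool.Agent.GCH.NBW
import Pool.Agent.GCH.EXL

/-!
# The colouring process: states, one step, invariants
-/

namespace Pool.GCH

open SimpleGraph Finset Classical

variable {V : Type*} [Fintype V]

/-- Parameters of a pass. -/
structure Par where
  q : ℕ
  d : ℕ
  κ : ℝ
  x0 : ℝ
  l1 : ℝ
  l2 : ℝ
  Lam : ℝ
  Gb : ℝ
  B : ℝ
  ρ : ℝ

/-- The conditions on the parameters used in every step. -/
structure Par.OK (P : Par) : Prop where
  κ0 : 0 < P.κ
  κ1 : P.κ ≤ 1 / 2
  x00 : 0 < P.x0
  x0κ : P.x0 < P.κ
  l10 : 0 ≤ P.l1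
  l11 : P.l1 * (2 * P.κ) ≤ 1
  l20 : 0 ≤ P.l2
  l2G : P.l2 * P.Gb ≤ 1
  l2κ : P.l2 * (4 * P.κ ^ 2) ≤ 1
  Lam0 : 0 ≤ P.Lam
  Lam1 : 2 * P.κ ≤ P.x0 * Real.exp P.Lam
  Gb1 : 2 * P.κ * (P.Lam + P.d * (2 * P.κ)) ≤ P.Gb
  stop : 2 * P.B ≤ 1 / 16 * Real.log (P.κ / P.x0)
  ρ0 : 0 ≤ P.ρ
  ρ1 : ∀ X : ℕ, P.d < 2 * X → 1 ≤ (3 : ℝ) ^ X * P.ρ

/-- State of the process. -/
structure St (V : Type*) (q : ℕ) where
  Y : V → Fin q → ℝ
  S : V → Fin q → ℝ
  X : V → ℕ
  col : V → Option (Fin q)
  F : Finset V

/-- Out-neighbours: the neighbours of smaller rank. -/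
noncomputable def out (G : SimpleGraph V) (r : V → ℕ) (v : V) : Finset V :=
  univ.filter (fun w => G.Adj v w ∧ r w < r v)

/-- Unprocessed out-neighbours at time `t`. -/
noncomputable def unp (G : SimpleGraph V) (r : V → ℕ) (t : ℕ) (v : V) : Finset V :=
  (out G r v).filter (fun w => t ≤ r w)

/-- Total colour weight of a vertex. -/
noncomputable def mass {q : ℕ} (s : St V q) (v : V) : ℝ := ∑ c, s.Y v c

/-- A vertex is good if its total weight, its weighted loss and its number of uncoloured
out-neighbours are as expected. -/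
def good (P : Par) (s : St V P.q) (z : V) : Prop :=
  13 / 16 ≤ mass s z ∧ mass s z ≤ 15 / 16 ∧ ∑ c, s.Y z c * s.S z c ≤ P.B ∧ 2 * s.X z ≤ P.d

/-- Probabilities of the colours at the vertex `z`. -/
noncomputable def pz (P : Par) (s : St V P.q) (z : V) (c : Fin P.q) : ℝ :=
  if good P s z ∧ s.Y z c ≤ P.κ then s.Y z c else 0

/-- The state after the vertex `z` is processed with outcome `o`. -/
noncomputable def nxt (P : Par) (G : SimpleGraph V) (r : V → ℕ) (s : St V P.q) (z : V)
    (o : Option (Fin P.q)) : St V P.q where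
  Y := fun v c => if G.Adj v z ∧ r z < r v then upd P.κ (s.Y v) (pz P s z) o c else s.Y v c
  S := fun v c => if (G.Adj v z ∧ r z < r v) ∧ s.Y v c ≤ P.κ then s.S v c + pz P s z c
    else s.S v c
  X := fun v => if (G.Adj v z ∧ r z < r v) ∧ good P s z ∧ o = none then s.X v + 1 else s.X v
  col := Function.update s.col z o
  F := if good P s z then s.F else insert z s.F

/-- The invariants of the process at time `t`. -/
structure Inv (P : Par) (G : SimpleGraph V) (r : V → ℕ) (t : ℕ) (s : St V P.q) : Prop where
  y0 : ∀ v c, 0 ≤ s.Y v c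
  y1 : ∀ v c, s.Y v c ≤ 2 * P.κ
  s0 : ∀ v c, 0 ≤ s.S v c
  ylo : ∀ v c, s.Y v c ≠ 0 → P.x0 * Real.exp (s.S v c) ≤ s.Y v c
  yhi : ∀ v c, s.Y v c ≤ P.x0 * Real.exp (2 * s.S v c)
  blk : ∀ z v c, r z < t → G.Adj v z → r z < r v → s.col z = some c →
    s.Y v c = 0 ∨ P.κ < s.Y v c
  xc : ∀ v, s.X v = ((out G r v).filter (fun z => r z < t ∧ s.col z = none ∧ z ∉ s.F)).card
  fg : ∀ z, z ∈ s.F ↔ (r z < t ∧ ¬ good P s z)
  pr : ∀ z z' c, r z < t → r z' < t → G.Adj z z' → s.col z = some c → s.col z' ≠ some c

variable {P : Par} {G : SimpleGraph V} {r : V → ℕ} {t : ℕ} {s : St V P.q} {z : V}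

theorem pz_nonneg (hI : Inv P G r t s) (c : Fin P.q) : 0 ≤ pz P s z c := by
  unfold pz
  split_ifs
  · exact hI.y0 _ _
  · exact le_rfl

theorem pz_le (hP : P.OK) (c : Fin P.q) : pz P s z c ≤ P.κ := by
  unfold pz
  split_ifs with h
  · exact h.2
  · exact hP.κ0.le

theorem pz_half (hP : P.OK) (c : Fin P.q) : pz P s z c ≤ 1 / 2 :=
  (pz_le hP c).trans hP.κ1

theorem pz_le_Y (hI : Inv P G r t s) (c : Fin P.q) : pz P s z c ≤ s.Y z c := by
  unfold pz
  split_ifs
  · exact le_rfl
  · exact hI.y0 _ _

theorem pz_sum (hI : Inv P G r t s) : ∑ c, pz P s z c ≤ 1 := by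
  by_cases h : good P s z
  · calc ∑ c, pz P s z c ≤ ∑ c, s.Y z c := Finset.sum_le_sum fun c _ => pz_le_Y hI c
      _ ≤ 15 / 16 := h.2.1
      _ ≤ 1 := by norm_num
  · have : ∀ c, pz P s z c = 0 := fun c => by
      unfold pz
      rw [if_neg]
      exact fun h' => h h'.1
    simp [this]

theorem none_le (hP : P.OK) (hI : Inv P G r t s) (h : good P s z) :
    1 - ∑ c, pz P s z c ≤ 1 / 4 := by
  have hlog : 0 < Real.log (P.κ / P.x0) := by
    apply Real.log_pos
    rw [one_lt_div hP.x00]
    exact hP.x0κ
  have h1 : ∀ c, Real.log (P.κ / P.x0) * (s.Y z c - pz P s z c) ≤ 2 * (s.Y z c * s.S z c) := by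
    intro c
    unfold pz
    by_cases h2 : s.Y z c ≤ P.κ
    · rw [if_pos ⟨h, h2⟩, sub_self, mul_zero]
      have := mul_nonneg (hI.y0 z c) (hI.s0 z c)
      linarith
    · rw [if_neg fun h' => h2 h'.2, sub_zero]
      have h3 : P.κ / P.x0 ≤ Real.exp (2 * s.S z c) := by
        rw [div_le_iff₀ hP.x00, mul_comm]
        exact (not_le.1 h2).le.trans (hI.yhi z c)
      have h4 : Real.log (P.κ / P.x0) ≤ 2 * s.S z c := by
        rw [← Real.log_exp (2 * s.S z c)]
        exact Real.log_le_log (div_pos hP.κ0 hP.x00) h3
      have := mul_le_mul_of_nonneg_right h4 (hI.y0 z c)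
      linarith
  have h5 : Real.log (P.κ / P.x0) * (∑ c, s.Y z c - ∑ c, pz P s z c) ≤
      2 * ∑ c, s.Y z c * s.S z c := by
    rw [← Finset.sum_sub_distrib, Finset.mul_sum, Finset.mul_sum]
    exact Finset.sum_le_sum fun c _ => h1 c
  have h6 := h.2.2.1
  have h7 := hP.stop
  have h8 : Real.log (P.κ / P.x0) * (∑ c, s.Y z c - ∑ c, pz P s z c) ≤
      Real.log (P.κ / P.x0) * (1 / 16) := by linarith
  have h9 := le_of_mul_le_mul_left h8 hlog
  have h10 := h.1
  unfold mass at h10
  linarith

theorem upd_nonneg {q : ℕ} {κ : ℝ} {y p : Fin q → ℝ} {o : Option (Fin q)} {c : Fin q}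
    (hy : 0 ≤ y c) (hp : p c ≤ 1 / 2) : 0 ≤ upd κ y p o c := by
  unfold upd
  split_ifs
  · exact le_rfl
  · exact div_nonneg hy (by linarith)
  · exact hy

theorem upd_le {q : ℕ} {κ : ℝ} {y p : Fin q → ℝ} {o : Option (Fin q)} {c : Fin q}
    (hκ : 0 ≤ κ) (hy : y c ≤ 2 * κ) (hp : p c ≤ 1 / 2) : upd κ y p o c ≤ 2 * κ := by
  unfold upd
  split_ifs with h1 h2
  · linarith
  · rw [div_le_iff₀ (by linarith)]
    nlinarith
  · exact hy

theorem good_nxt (o : Option (Fin P.q)) {z' : V} (h : ¬ r z < r z') :
    good P (nxt P G r s z o) z' ↔ good P s z' := by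
  simp only [good, nxt, mass, h, and_false, if_false, false_and]

theorem Inv.step (hP : P.OK) (hr : Function.Injective r) (hI : Inv P G r t s) (hz : r z = t)
    (o : Option (Fin P.q)) (ho : 0 < wt (pz P s z) o) :
    Inv P G r (t + 1) (nxt P G r s z o) := by
  have hlt : ∀ z', r z' < t + 1 → r z' < t ∨ z' = z := by
    intro z' h
    rcases Nat.lt_or_ge (r z') t with h1 | h1
    · exact Or.inl h1
    · exact Or.inr (hr (by omega))
  have hne : ∀ z', r z' < t → z' ≠ z := by
    rintro z' h rfl
    omega
  have hzF : z ∉ s.F := by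
    intro h
    have := ((hI.fg z).1 h).1
    omega
  refine ⟨?_, ?_, ?_, ?_, ?_, ?_, ?_, ?_, ?_⟩
  · intro v c
    simp only [nxt]
    split_ifs
    · exact upd_nonneg (hI.y0 v c) (pz_half hP c)
    · exact hI.y0 v c
  · intro v c
    simp only [nxt]
    split_ifs
    · exact upd_le hP.κ0.le (hI.y1 v c) (pz_half hP c)
    · exact hI.y1 v c
  · intro v c
    simp only [nxt]
    split_ifs
    · exact add_nonneg (hI.s0 v c) (pz_nonneg hI c)
    · exact hI.s0 v c
  · intro v c hne0
    simp only [nxt] at hne0 ⊢
    by_cases h1 : G.Adj v z ∧ r z < r v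
    · rw [if_pos h1] at hne0 ⊢
      by_cases h2 : s.Y v c ≤ P.κ
      · rw [if_pos ⟨h1, h2⟩]
        unfold upd at hne0 ⊢
        rw [if_pos h2] at hne0 ⊢
        by_cases h3 : o = some c
        · rw [if_pos h3] at hne0
          exact absurd rfl hne0
        · rw [if_neg h3] at hne0 ⊢
          have h4 : s.Y v c ≠ 0 := by
            intro h
            rw [h, zero_div] at hne0
            exact hne0 rfl
          have h5 := hI.ylo v c h4
          have h6 := inv_one_sub_lower (pz_half (s := s) (z := z) hP c)
          calc P.x0 * Real.exp (s.S v c + pz P s z c)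
              = (P.x0 * Real.exp (s.S v c)) * Real.exp (pz P s z c) := by
                rw [Real.exp_add]
                ring
            _ ≤ s.Y v c * (1 / (1 - pz P s z c)) :=
                mul_le_mul h5 h6 (Real.exp_pos _).le (hI.y0 v c)
            _ = s.Y v c / (1 - pz P s z c) := by ring
      · rw [if_neg fun h => h2 h.2]
        unfold upd at hne0 ⊢
        rw [if_neg h2] at hne0 ⊢
        exact hI.ylo v c hne0
    · rw [if_neg h1] at hne0 ⊢
      rw [if_neg fun h => h1 h.1]
      exact hI.ylo v c hne0
  · intro v c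
    simp only [nxt]
    by_cases h1 : G.Adj v z ∧ r z < r v
    · rw [if_pos h1]
      by_cases h2 : s.Y v c ≤ P.κ
      · rw [if_pos ⟨h1, h2⟩]
        unfold upd
        rw [if_pos h2]
        by_cases h3 : o = some c
        · rw [if_pos h3]
          exact mul_nonneg hP.x00.le (Real.exp_pos _).le
        · rw [if_neg h3]
          have h5 := hI.yhi v c
          have h6 := inv_one_sub_upper (pz_nonneg (z := z) hI c) (pz_half (s := s) (z := z) hP c)
          have h7 : 0 ≤ 1 / (1 - pz P s z c) := by
            have := pz_half (s := s) (z := z) hP c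
            exact div_nonneg zero_le_one (by linarith)
          calc s.Y v c / (1 - pz P s z c) = s.Y v c * (1 / (1 - pz P s z c)) := by ring
            _ ≤ (P.x0 * Real.exp (2 * s.S v c)) * Real.exp (2 * pz P s z c) :=
                mul_le_mul h5 h6 h7 (mul_nonneg hP.x00.le (Real.exp_pos _).le)
            _ = P.x0 * Real.exp (2 * (s.S v c + pz P s z c)) := by
                rw [mul_add 2, Real.exp_add]
                ring
      · rw [if_neg fun h => h2 h.2]
        unfold upd
        rw [if_neg h2]
        exact hI.yhi v c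
    · rw [if_neg h1, if_neg fun h => h1 h.1]
      exact hI.yhi v c
  · intro z' v c hz' hadj hrr hcol
    simp only [nxt] at hcol ⊢
    rcases hlt z' hz' with h1 | h1
    · rw [Function.update_of_ne (hne z' h1)] at hcol
      have h2 := hI.blk z' v c h1 hadj hrr hcol
      by_cases h3 : G.Adj v z ∧ r z < r v
      · rw [if_pos h3]
        unfold upd
        rcases h2 with h2 | h2
        · left
          rw [h2, if_pos hP.κ0.le, zero_div]
          split_ifs <;> rfl
        · right
          rw [if_neg (not_le.2 h2)]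
          exact h2
      · rw [if_neg h3]
        exact h2
    · subst h1
      rw [Function.update_self] at hcol
      rw [if_pos ⟨hadj, hrr⟩]
      unfold upd
      by_cases h2 : s.Y v c ≤ P.κ
      · left
        rw [if_pos h2, if_pos hcol]
      · right
        rw [if_neg h2]
        exact not_le.1 h2
  · intro v
    have hold : ∀ z', z' ≠ z → ((r z' < t + 1 ∧ Function.update s.col z o z' = none ∧
        z' ∉ (if good P s z then s.F else insert z s.F)) ↔
        (r z' < t ∧ s.col z' = none ∧ z' ∉ s.F)) := by
      intro z' h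
      have h0 : r z' ≠ t := fun h' => h (hr (by omega))
      rw [Function.update_of_ne h]
      constructor
      · rintro ⟨h1, h2, h3⟩
        refine ⟨by omega, h2, ?_⟩
        intro h4
        apply h3
        split_ifs
        · exact h4
        · exact Finset.mem_insert_of_mem h4
      · rintro ⟨h1, h2, h3⟩
        refine ⟨by omega, h2, ?_⟩
        intro h4
        apply h3
        split_ifs at h4
        · exact h4
        · rcases Finset.mem_insert.1 h4 with h5 | h5
          · exact absurd h5 h
          · exact h5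
    have hz0 : ¬ (r z < t ∧ s.col z = none ∧ z ∉ s.F) := fun h => by omega
    simp only [nxt]
    by_cases h1 : (G.Adj v z ∧ r z < r v) ∧ good P s z ∧ o = none
    · rw [if_pos h1, hI.xc v]
      have h2 : (out G r v).filter (fun z' => r z' < t + 1 ∧
          Function.update s.col z o z' = none ∧
          z' ∉ (if good P s z then s.F else insert z s.F)) =
          insert z ((out G r v).filter (fun z' => r z' < t ∧ s.col z' = none ∧ z' ∉ s.F)) := by
        ext z'
        rw [Finset.mem_insert, Finset.mem_filter, Finset.mem_filter]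
        by_cases h3 : z' = z
        · subst h3
          simp only [true_or, iff_true, Function.update_self]
          refine ⟨?_, by omega, h1.2.2, ?_⟩
          · simp only [out, Finset.mem_filter, Finset.mem_univ, true_and]
            exact h1.1
          · rw [if_pos h1.2.1]
            exact hzF
        · rw [hold z' h3]
          simp only [h3, false_or]
      rw [h2, Finset.card_insert_of_notMem]
      rw [Finset.mem_filter]
      exact fun h => hz0 h.2
    · rw [if_neg h1, hI.xc v]
      congr 1
      ext z'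
      rw [Finset.mem_filter, Finset.mem_filter]
      by_cases h3 : z' = z
      · subst h3
        simp only [Function.update_self]
        constructor
        · rintro ⟨h4, h5, h6, h7⟩
          omega
        · rintro ⟨h4, h5, h6, h7⟩
          exfalso
          apply h1
          simp only [out, Finset.mem_filter, Finset.mem_univ, true_and] at h4
          refine ⟨h4, ?_, h6⟩
          by_contra h8
          rw [if_neg h8] at h7
          exact h7 (Finset.mem_insert_self _ _)
      · rw [hold z' h3]
  · intro z'
    by_cases h1 : r z < r z'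
    · have h2 : z' ≠ z := by
        rintro rfl
        omega
      constructor
      · intro h
        exfalso
        have h3 : z' ∈ s.F := by
          simp only [nxt] at h
          split_ifs at h
          · exact h
          · rcases Finset.mem_insert.1 h with h5 | h5
            · exact absurd h5 h2
            · exact h5
        have := ((hI.fg z').1 h3).1
        omega
      · rintro ⟨h, _⟩
        omega
    · rw [good_nxt o h1]
      by_cases h2 : z' = z
      · subst h2
        simp only [nxt]
        constructor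
        · intro h
          refine ⟨by omega, ?_⟩
          intro h3
          rw [if_pos h3] at h
          exact hzF h
        · rintro ⟨_, h⟩
          rw [if_neg h]
          exact Finset.mem_insert_self _ _
      · have h3 : z' ∈ (nxt P G r s z o).F ↔ z' ∈ s.F := by
          simp only [nxt]
          split_ifs
          · exact Iff.rfl
          · rw [Finset.mem_insert]
            simp [h2]
        rw [h3, hI.fg z']
        have h0 : r z' ≠ t := fun h' => h2 (hr (by omega))
        constructor
        · rintro ⟨h4, h5⟩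
          exact ⟨by omega, h5⟩
        · rintro ⟨h4, h5⟩
          exact ⟨by omega, h5⟩
  · have hkey : ∀ z' c, r z' < t → G.Adj z z' → s.col z' = some c → o ≠ some c := by
      rintro z' c h1 h2 h3 rfl
      simp only [wt] at ho
      unfold pz at ho
      split_ifs at ho with h4
      · rcases hI.blk z' z c h1 h2 (by omega) h3 with h5 | h5
        · rw [h5] at ho
          exact lt_irrefl _ ho
        · linarith [h4.2]
      · exact lt_irrefl _ ho
    intro z1 z2 c h1 h2 hadj hc1 hc2
    simp only [nxt] at hc1 hc2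
    rcases hlt z1 h1 with h3 | h3 <;> rcases hlt z2 h2 with h4 | h4
    · rw [Function.update_of_ne (hne _ h3)] at hc1
      rw [Function.update_of_ne (hne _ h4)] at hc2
      exact hI.pr z1 z2 c h3 h4 hadj hc1 hc2
    · subst h4
      rw [Function.update_of_ne (hne _ h3)] at hc1
      rw [Function.update_self] at hc2
      exact hkey z1 c h3 hadj.symm hc1 hc2
    · subst h3
      rw [Function.update_self] at hc1
      rw [Function.update_of_ne (hne _ h4)] at hc2
      exact hkey z2 c h4 hadj hc2 hc1
    · subst h3
      subst h4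
      exact absurd hadj (G.loopless.irrefl _)

end Pool.GCH
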