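import Pool.Agent.GCH.PRO

/-!
# The potential of a vertex is a supermartingale
-/

namespace Pool.GCH

open SimpleGraph Finset Classical

variable {V : Type*} [Fintype V]

/-- The expected loss. -/
noncomputable def Psi {q : ℕ} (G : SimpleGraph V) (r : V → ℕ) (t : ℕ) (s : St V q) (v : V) : ℝ :=
  ∑ c, s.Y v c * (s.S v c + ∑ w ∈ unp G r t v, s.Y w c)

/-- Number of unprocessed out-neighbours. -/
noncomputable def k1 (G : SimpleGraph V) (r : V → ℕ) (t : ℕ) (v : V) : ℕ := (unp G r t v).card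

/-- Number of unprocessed out-neighbours of out-neighbours. -/
noncomputable def k2 (G : SimpleGraph V) (r : V → ℕ) (t : ℕ) (v : V) : ℕ :=
  ∑ w ∈ out G r v, (unp G r t w).card

/-- The potential of a vertex. -/
noncomputable def ZZ (P : Par) (G : SimpleGraph V) (r : V → ℕ) (t : ℕ) (s : St V P.q) (v : V) :
    ℝ :=
  Real.exp (P.l1 * (mass s v - 15 / 16) + P.l1 ^ 2 * (2 * P.κ) ^ 2 * (k1 G r t v : ℝ)) +
  Real.exp (P.l1 * (13 / 16 - mass s v) + P.l1 ^ 2 * (2 * P.κ) ^ 2 * (k1 G r t v : ℝ)) +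
  Real.exp (P.l2 * (Psi G r t s v - P.B) + P.l2 ^ 2 * P.Gb ^ 2 * (k1 G r t v : ℝ) +
    P.l2 ^ 2 * (4 * P.κ ^ 2) ^ 2 * (k2 G r t v : ℝ)) +
  (3 : ℝ) ^ s.X v * (3 / 2 : ℝ) ^ (k1 G r t v) * P.ρ

variable {P : Par} {G : SimpleGraph V} {r : V → ℕ} {t : ℕ} {s : St V P.q} {z : V}

theorem mem_out {v w : V} : w ∈ out G r v ↔ G.Adj v w ∧ r w < r v := by
  simp [out]

theorem mem_unp {v w : V} : w ∈ unp G r t v ↔ (G.Adj v w ∧ r w < r v) ∧ t ≤ r w := by
  simp [unp, out]

theorem ZZ_nonneg (hP : P.OK) (v : V) : 0 ≤ ZZ P G r t s v := by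
  have := hP.ρ0
  unfold ZZ
  positivity

theorem one_le_ZZ (hP : P.OK) (hI : Inv P G r t s) {v : V} (hv : ¬ good P s v) :
    1 ≤ ZZ P G r t s v := by
  have h1 := Real.exp_pos (P.l1 * (mass s v - 15 / 16) +
    P.l1 ^ 2 * (2 * P.κ) ^ 2 * (k1 G r t v : ℝ))
  have h2 := Real.exp_pos (P.l1 * (13 / 16 - mass s v) +
    P.l1 ^ 2 * (2 * P.κ) ^ 2 * (k1 G r t v : ℝ))
  have h3 := Real.exp_pos (P.l2 * (Psi G r t s v - P.B) + P.l2 ^ 2 * P.Gb ^ 2 * (k1 G r t v : ℝ) +
    P.l2 ^ 2 * (4 * P.κ ^ 2) ^ 2 * (k2 G r t v : ℝ))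
  have h4 : 0 ≤ (3 : ℝ) ^ s.X v * (3 / 2 : ℝ) ^ (k1 G r t v) * P.ρ := by
    have := hP.ρ0
    positivity
  have hl1 := hP.l10
  have hl2 := hP.l20
  unfold ZZ
  by_cases g1 : 13 / 16 ≤ mass s v
  · by_cases g2 : mass s v ≤ 15 / 16
    · by_cases g3 : ∑ c, s.Y v c * s.S v c ≤ P.B
      · have g4 : P.d < 2 * s.X v := by
          by_contra h
          exact hv ⟨g1, g2, g3, not_lt.1 h⟩
        have h5 := hP.ρ1 _ g4
        have h6 : (1 : ℝ) ≤ (3 / 2 : ℝ) ^ (k1 G r t v) := one_le_pow₀ (by norm_num)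
        have h7 : 1 ≤ (3 : ℝ) ^ s.X v * (3 / 2 : ℝ) ^ (k1 G r t v) * P.ρ := by
          calc (1 : ℝ) = 1 * 1 := by ring
            _ ≤ ((3 : ℝ) ^ s.X v * P.ρ) * (3 / 2 : ℝ) ^ (k1 G r t v) :=
                mul_le_mul h5 h6 zero_le_one (zero_le_one.trans h5)
            _ = _ := by ring
        linarith
      · have h5 : ∑ c, s.Y v c * s.S v c ≤ Psi G r t s v := by
          unfold Psi
          refine Finset.sum_le_sum fun c _ => ?_
          have h6 : 0 ≤ ∑ w ∈ unp G r t v, s.Y w c := Finset.sum_nonneg fun w _ => hI.y0 w c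
          have h7 := hI.y0 v c
          nlinarith
        have h6 : 1 ≤ Real.exp (P.l2 * (Psi G r t s v - P.B) +
            P.l2 ^ 2 * P.Gb ^ 2 * (k1 G r t v : ℝ) +
            P.l2 ^ 2 * (4 * P.κ ^ 2) ^ 2 * (k2 G r t v : ℝ)) := by
          apply Real.one_le_exp
          have h7 : 0 ≤ P.l2 * (Psi G r t s v - P.B) :=
            mul_nonneg hl2 (by linarith [not_le.1 g3])
          positivity
        linarith
    · have h6 : 1 ≤ Real.exp (P.l1 * (mass s v - 15 / 16) +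
          P.l1 ^ 2 * (2 * P.κ) ^ 2 * (k1 G r t v : ℝ)) := by
        apply Real.one_le_exp
        have h7 : 0 ≤ P.l1 * (mass s v - 15 / 16) :=
          mul_nonneg hl1 (by linarith [not_le.1 g2])
        positivity
      linarith
  · have h6 : 1 ≤ Real.exp (P.l1 * (13 / 16 - mass s v) +
        P.l1 ^ 2 * (2 * P.κ) ^ 2 * (k1 G r t v : ℝ)) := by
      apply Real.one_le_exp
      have h7 : 0 ≤ P.l1 * (13 / 16 - mass s v) :=
        mul_nonneg hl1 (by linarith [not_le.1 g1])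
      positivity
    linarith

/-- The vertices whose potential may change when `z` is processed. -/
def aff (G : SimpleGraph V) (r : V → ℕ) (z v : V) : Prop :=
  (G.Adj v z ∧ r z < r v) ∨ ∃ w, (G.Adj v w ∧ r w < r v) ∧ (G.Adj w z ∧ r z < r w)

theorem unp_succ_of_not {v : V} (hr : Function.Injective r) (hz : r z = t)
    (h : ¬ (G.Adj v z ∧ r z < r v)) : unp G r (t + 1) v = unp G r t v := by
  ext w
  rw [mem_unp, mem_unp]
  constructor
  · rintro ⟨h1, h2⟩
    exact ⟨h1, by omega⟩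
  · rintro ⟨h1, h2⟩
    refine ⟨h1, ?_⟩
    by_contra h3
    have h4 : w = z := hr (by omega)
    subst h4
    exact h h1

theorem unp_succ_of {v : V} (hr : Function.Injective r) (hz : r z = t)
    (h : G.Adj v z ∧ r z < r v) : unp G r t v = insert z (unp G r (t + 1) v) := by
  ext w
  rw [Finset.mem_insert, mem_unp, mem_unp]
  constructor
  · rintro ⟨h1, h2⟩
    by_cases h3 : w = z
    · exact Or.inl h3
    · right
      refine ⟨h1, ?_⟩
      by_contra h4
      exact h3 (hr (by omega))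
  · rintro (h1 | ⟨h1, h2⟩)
    · subst h1
      exact ⟨h, by omega⟩
    · exact ⟨h1, by omega⟩

theorem not_mem_unp_succ {v : V} (hz : r z = t) : z ∉ unp G r (t + 1) v := by
  rw [mem_unp]
  rintro ⟨_, h⟩
  omega

theorem unp_succ_subset {v : V} : unp G r (t + 1) v ⊆ unp G r t v := by
  intro w
  rw [mem_unp, mem_unp]
  rintro ⟨h1, h2⟩
  exact ⟨h1, by omega⟩

theorem ZZ_of_not_aff (hr : Function.Injective r) (hz : r z = t) {v : V} (hv : ¬ aff G r z v)
    (o : Option (Fin P.q)) : ZZ P G r (t + 1) (nxt P G r s z o) v = ZZ P G r t s v := by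
  have h1 : ¬ (G.Adj v z ∧ r z < r v) := fun h => hv (Or.inl h)
  have h2 : ∀ w ∈ out G r v, ¬ (G.Adj w z ∧ r z < r w) := fun w hw h =>
    hv (Or.inr ⟨w, mem_out.1 hw, h⟩)
  have h3 : unp G r (t + 1) v = unp G r t v := unp_succ_of_not hr hz h1
  have hk1 : k1 G r (t + 1) v = k1 G r t v := by
    unfold k1
    rw [h3]
  have hk2 : k2 G r (t + 1) v = k2 G r t v := by
    unfold k2
    refine Finset.sum_congr rfl fun w hw => ?_
    rw [unp_succ_of_not hr hz (h2 w hw)]
  have hm : mass (nxt P G r s z o) v = mass s v := by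
    simp only [mass, nxt, h1, if_false]
  have hX : (nxt P G r s z o).X v = s.X v := by
    simp only [nxt, h1, false_and, if_false]
  have hPsi : Psi G r (t + 1) (nxt P G r s z o) v = Psi G r t s v := by
    unfold Psi
    rw [h3]
    refine Finset.sum_congr rfl fun c _ => ?_
    have h4 : ∑ w ∈ unp G r t v, (nxt P G r s z o).Y w c = ∑ w ∈ unp G r t v, s.Y w c := by
      refine Finset.sum_congr rfl fun w hw => ?_
      have h5 : ¬ (G.Adj w z ∧ r z < r w) := h2 w (mem_out.2 (mem_unp.1 hw).1)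
      simp only [nxt, h5, if_false]
    rw [h4]
    simp only [nxt, h1, false_and, if_false]
  unfold ZZ
  rw [hk1, hk2, hm, hX, hPsi]

theorem k2_succ_le (v : V) : k2 G r (t + 1) v ≤ k2 G r t v :=
  Finset.sum_le_sum fun _ _ => Finset.card_le_card unp_succ_subset

/-- The potential is a supermartingale, first case: `z` is an out-neighbour of `v`. -/
theorem ZZ_step1 (hP : P.OK) (hr : Function.Injective r) (hI : Inv P G r t s) (hz : r z = t)
    (hG : HG G 4) (hd : ∀ v, (out G r v).card ≤ P.d) {v : V} (hv : G.Adj v z ∧ r z < r v) :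
    ∑ o, wt (pz P s z) o * ZZ P G r (t + 1) (nxt P G r s z o) v ≤ ZZ P G r t s v := by
  set p := pz P s z with hp
  have hp0 : ∀ c, 0 ≤ p c := fun c => pz_nonneg hI c
  have hp2 : ∀ c, p c ≤ 1 / 2 := fun c => pz_half hP c
  have hps : ∑ c, p c ≤ 1 := pz_sum hI
  have hw0 := wt_nonneg hp0 hps
  have hκ0 := hP.κ0
  have hk : k1 G r t v = k1 G r (t + 1) v + 1 := by
    unfold k1
    rw [unp_succ_of hr hz hv, Finset.card_insert_of_notMem (not_mem_unp_succ hz)]
  have hkR : (k1 G r t v : ℝ) = (k1 G r (t + 1) v : ℝ) + 1 := by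
    rw [hk]
    push_cast
    ring
  have hk2 : (k2 G r (t + 1) v : ℝ) ≤ (k2 G r t v : ℝ) := by
    exact_mod_cast k2_succ_le v
  have hmass : ∀ o, mass (nxt P G r s z o) v = ∑ c, upd P.κ (s.Y v) p o c * (1 : ℝ) := by
    intro o
    simp only [mass, nxt, hv, if_true, and_self, mul_one, hp]
  have hmass0 : mass s v = ∑ c, s.Y v c * (1 : ℝ) := by
    simp only [mass, mul_one]
  -- first and second term
  have hM : ∀ l : ℝ, |l| * (2 * P.κ) ≤ 1 →
      ∑ o, wt p o * Real.exp (l * ∑ c, upd P.κ (s.Y v) p o c * (1 : ℝ)) ≤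
        Real.exp (l * ∑ c, s.Y v c * (1 : ℝ) + l ^ 2 * (2 * P.κ) ^ 2) := by
    intro l hl
    exact upd_moment P.κ (2 * P.κ) l (s.Y v) p (fun _ => 1) hp0 hp2 hps (hI.y0 v)
      (fun _ => zero_le_one) (by linarith) (fun c hc => by linarith) hl
  have hT1 : ∑ o, wt p o * Real.exp (P.l1 * (mass (nxt P G r s z o) v - 15 / 16) +
      P.l1 ^ 2 * (2 * P.κ) ^ 2 * (k1 G r (t + 1) v : ℝ)) ≤
      Real.exp (P.l1 * (mass s v - 15 / 16) + P.l1 ^ 2 * (2 * P.κ) ^ 2 * (k1 G r t v : ℝ)) := by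
    have h1 := hM P.l1 (by rw [abs_of_nonneg hP.l10]; exact hP.l11)
    calc _ = Real.exp (-(P.l1 * (15 / 16)) +
          P.l1 ^ 2 * (2 * P.κ) ^ 2 * (k1 G r (t + 1) v : ℝ)) *
          ∑ o, wt p o * Real.exp (P.l1 * ∑ c, upd P.κ (s.Y v) p o c * (1 : ℝ)) := by
          rw [Finset.mul_sum]
          refine Finset.sum_congr rfl fun o _ => ?_
          rw [hmass, mul_left_comm, ← Real.exp_add]
          congr 2
          ring
      _ ≤ Real.exp (-(P.l1 * (15 / 16)) +
          P.l1 ^ 2 * (2 * P.κ) ^ 2 * (k1 G r (t + 1) v : ℝ)) *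
          Real.exp (P.l1 * ∑ c, s.Y v c * (1 : ℝ) + P.l1 ^ 2 * (2 * P.κ) ^ 2) :=
          mul_le_mul_of_nonneg_left h1 (Real.exp_pos _).le
      _ = _ := by
          rw [← Real.exp_add, hkR, hmass0]
          congr 1
          ring
  have hT2 : ∑ o, wt p o * Real.exp (P.l1 * (13 / 16 - mass (nxt P G r s z o) v) +
      P.l1 ^ 2 * (2 * P.κ) ^ 2 * (k1 G r (t + 1) v : ℝ)) ≤
      Real.exp (P.l1 * (13 / 16 - mass s v) + P.l1 ^ 2 * (2 * P.κ) ^ 2 * (k1 G r t v : ℝ)) := by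
    have h1 := hM (-P.l1) (by rw [abs_neg, abs_of_nonneg hP.l10]; exact hP.l11)
    calc _ = Real.exp (P.l1 * (13 / 16) +
          P.l1 ^ 2 * (2 * P.κ) ^ 2 * (k1 G r (t + 1) v : ℝ)) *
          ∑ o, wt p o * Real.exp ((-P.l1) * ∑ c, upd P.κ (s.Y v) p o c * (1 : ℝ)) := by
          rw [Finset.mul_sum]
          refine Finset.sum_congr rfl fun o _ => ?_
          rw [hmass, mul_left_comm, ← Real.exp_add]
          congr 2
          ring
      _ ≤ Real.exp (P.l1 * (13 / 16) +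
          P.l1 ^ 2 * (2 * P.κ) ^ 2 * (k1 G r (t + 1) v : ℝ)) *
          Real.exp ((-P.l1) * ∑ c, s.Y v c * (1 : ℝ) + (-P.l1) ^ 2 * (2 * P.κ) ^ 2) :=
          mul_le_mul_of_nonneg_left h1 (Real.exp_pos _).le
      _ = _ := by
          rw [← Real.exp_add, hkR, hmass0]
          congr 1
          ring
  -- third term
  let R : Fin P.q → ℝ := fun c => s.S v c + ∑ w ∈ unp G r t v, s.Y w c
  have hR0 : ∀ c, 0 ≤ R c := fun c =>
    add_nonneg (hI.s0 v c) (Finset.sum_nonneg fun w _ => hI.y0 w c)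
  have hGb0 : 0 ≤ P.Gb := by
    refine le_trans ?_ hP.Gb1
    have := hP.Lam0
    positivity
  have hRG : ∀ c, s.Y v c ≤ P.κ → s.Y v c * R c ≤ P.Gb / 2 := by
    intro c hc
    by_cases h0 : s.Y v c = 0
    · rw [h0, zero_mul]
      linarith
    · have h1 := hI.ylo v c h0
      have h2 : P.x0 * Real.exp (s.S v c) ≤ P.x0 * Real.exp P.Lam :=
        h1.trans ((hI.y1 v c).trans hP.Lam1)
      have h3 : s.S v c ≤ P.Lam := Real.exp_le_exp.1 (le_of_mul_le_mul_left h2 hP.x00)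
      have h4 : ∑ w ∈ unp G r t v, s.Y w c ≤ P.d * (2 * P.κ) := by
        calc ∑ w ∈ unp G r t v, s.Y w c ≤ ∑ w ∈ unp G r t v, 2 * P.κ :=
              Finset.sum_le_sum fun w _ => hI.y1 w c
          _ = ((unp G r t v).card : ℝ) * (2 * P.κ) := by
              rw [Finset.sum_const, nsmul_eq_mul]
          _ ≤ P.d * (2 * P.κ) := by
              refine mul_le_mul_of_nonneg_right ?_ (by linarith)
              exact_mod_cast (Finset.card_filter_le _ _).trans (hd v)
      have h5 : R c ≤ P.Lam + P.d * (2 * P.κ) := by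
        simp only [R]
        linarith
      have h6 := mul_le_mul hc h5 (hR0 c) hκ0.le
      have h7 := hP.Gb1
      nlinarith
  have hPsi : ∀ o, Psi G r (t + 1) (nxt P G r s z o) v ≤ ∑ c, upd P.κ (s.Y v) p o c * R c := by
    intro o
    unfold Psi
    refine Finset.sum_le_sum fun c _ => ?_
    have h1 : (nxt P G r s z o).Y v c = upd P.κ (s.Y v) p o c := by
      simp only [nxt, hv, if_true, and_self, hp]
    have h2 : ∑ w ∈ unp G r (t + 1) v, (nxt P G r s z o).Y w c =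
        ∑ w ∈ unp G r (t + 1) v, s.Y w c := by
      refine Finset.sum_congr rfl fun w hw => ?_
      have h5 : ¬ (G.Adj w z ∧ r z < r w) := by
        rintro ⟨h6, _⟩
        exact hG.no_tri (by omega) (mem_unp.1 hw).1.1 h6 hv.1
      simp only [nxt, h5, if_false]
    rw [h1, h2]
    refine mul_le_mul_of_nonneg_left ?_ (upd_nonneg (hI.y0 v c) (hp2 c))
    simp only [R]
    rw [unp_succ_of hr hz hv, Finset.sum_insert (not_mem_unp_succ hz)]
    have h3 : (nxt P G r s z o).S v c ≤ s.S v c + s.Y z c := by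
      simp only [nxt]
      split_ifs
      · have := pz_le_Y (z := z) hI c
        linarith
      · have := hI.y0 z c
        linarith
    linarith
  have hT3 : ∑ o, wt p o * Real.exp (P.l2 * (Psi G r (t + 1) (nxt P G r s z o) v - P.B) +
      P.l2 ^ 2 * P.Gb ^ 2 * (k1 G r (t + 1) v : ℝ) +
      P.l2 ^ 2 * (4 * P.κ ^ 2) ^ 2 * (k2 G r (t + 1) v : ℝ)) ≤
      Real.exp (P.l2 * (Psi G r t s v - P.B) + P.l2 ^ 2 * P.Gb ^ 2 * (k1 G r t v : ℝ) +
      P.l2 ^ 2 * (4 * P.κ ^ 2) ^ 2 * (k2 G r t v : ℝ)) := by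
    have h1 := upd_moment P.κ P.Gb P.l2 (s.Y v) p R hp0 hp2 hps (hI.y0 v) hR0 hGb0 hRG
      (by rw [abs_of_nonneg hP.l20]; exact hP.l2G)
    calc _ ≤ Real.exp (-(P.l2 * P.B) + P.l2 ^ 2 * P.Gb ^ 2 * (k1 G r (t + 1) v : ℝ) +
          P.l2 ^ 2 * (4 * P.κ ^ 2) ^ 2 * (k2 G r t v : ℝ)) *
          ∑ o, wt p o * Real.exp (P.l2 * ∑ c, upd P.κ (s.Y v) p o c * R c) := by
          rw [Finset.mul_sum]
          refine Finset.sum_le_sum fun o _ => ?_
          rw [mul_left_comm, ← Real.exp_add]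
          refine mul_le_mul_of_nonneg_left ?_ (hw0 o)
          rw [Real.exp_le_exp]
          have h2 := mul_le_mul_of_nonneg_left (hPsi o) hP.l20
          have h3 : P.l2 ^ 2 * (4 * P.κ ^ 2) ^ 2 * (k2 G r (t + 1) v : ℝ) ≤
              P.l2 ^ 2 * (4 * P.κ ^ 2) ^ 2 * (k2 G r t v : ℝ) :=
            mul_le_mul_of_nonneg_left hk2 (by positivity)
          linarith
      _ ≤ Real.exp (-(P.l2 * P.B) + P.l2 ^ 2 * P.Gb ^ 2 * (k1 G r (t + 1) v : ℝ) +
          P.l2 ^ 2 * (4 * P.κ ^ 2) ^ 2 * (k2 G r t v : ℝ)) *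
          Real.exp (P.l2 * ∑ c, s.Y v c * R c + P.l2 ^ 2 * P.Gb ^ 2) :=
          mul_le_mul_of_nonneg_left h1 (Real.exp_pos _).le
      _ = _ := by
          rw [← Real.exp_add, hkR]
          congr 1
          simp only [Psi, R]
          ring
  -- fourth term
  have hT4 : ∑ o, wt p o * ((3 : ℝ) ^ (nxt P G r s z o).X v *
      (3 / 2 : ℝ) ^ (k1 G r (t + 1) v) * P.ρ) ≤
      (3 : ℝ) ^ s.X v * (3 / 2 : ℝ) ^ (k1 G r t v) * P.ρ := by
    have h1 : ∑ o, wt p o * (3 : ℝ) ^ (nxt P G r s z o).X v ≤ (3 : ℝ) ^ s.X v * (3 / 2) := by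
      by_cases hg : good P s z
      · have h2 := none_moment p (none_le hP hI hg)
        calc _ = (3 : ℝ) ^ s.X v * ∑ o, wt p o * (if o = none then (3 : ℝ) else 1) := by
              rw [Finset.mul_sum]
              refine Finset.sum_congr rfl fun o _ => ?_
              simp only [nxt, hv, hg, and_self, true_and]
              split_ifs
              · rw [pow_succ]
                ring
              · ring
          _ ≤ _ := mul_le_mul_of_nonneg_left h2 (by positivity)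
      · calc _ = ∑ o, wt p o * (3 : ℝ) ^ s.X v := by
              refine Finset.sum_congr rfl fun o _ => ?_
              simp only [nxt, hg, false_and, and_false, if_false]
          _ = (3 : ℝ) ^ s.X v := by rw [← Finset.sum_mul, wt_sum, one_mul]
          _ ≤ _ := by
              have : (0 : ℝ) < (3 : ℝ) ^ s.X v := by positivity
              linarith
    calc _ = (∑ o, wt p o * (3 : ℝ) ^ (nxt P G r s z o).X v) *
          ((3 / 2 : ℝ) ^ (k1 G r (t + 1) v) * P.ρ) := by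
          rw [Finset.sum_mul]
          refine Finset.sum_congr rfl fun o _ => ?_
          ring
      _ ≤ ((3 : ℝ) ^ s.X v * (3 / 2)) * ((3 / 2 : ℝ) ^ (k1 G r (t + 1) v) * P.ρ) := by
          refine mul_le_mul_of_nonneg_right h1 ?_
          have := hP.ρ0
          positivity
      _ = _ := by
          rw [hk, pow_succ]
          ring
  unfold ZZ
  simp only [mul_add, Finset.sum_add_distrib] at hT1 hT2 hT3 hT4 ⊢
  linarith

/-- The potential is a supermartingale, second case: `z` is an out-neighbour of an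
out-neighbour `w` of `v`. -/
theorem ZZ_step2 (hP : P.OK) (hr : Function.Injective r) (hI : Inv P G r t s) (hz : r z = t)
    (hG : HG G 4) {v w : V} (hv : G.Adj v w ∧ r w < r v) (hw : G.Adj w z ∧ r z < r w) :
    ∑ o, wt (pz P s z) o * ZZ P G r (t + 1) (nxt P G r s z o) v ≤ ZZ P G r t s v := by
  set p := pz P s z with hp
  have hp0 : ∀ c, 0 ≤ p c := fun c => pz_nonneg hI c
  have hp2 : ∀ c, p c ≤ 1 / 2 := fun c => pz_half hP c
  have hps : ∑ c, p c ≤ 1 := pz_sum hI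
  have hw0 := wt_nonneg hp0 hps
  have hw1 := wt_sum p
  have hκ0 := hP.κ0
  have hvz : ¬ (G.Adj v z ∧ r z < r v) := by
    rintro ⟨h, _⟩
    exact hG.no_tri (by omega) hv.1 hw.1 h
  have hvz' : v ≠ z := by
    rintro rfl
    omega
  have h3 : unp G r (t + 1) v = unp G r t v := unp_succ_of_not hr hz hvz
  have hk : k1 G r (t + 1) v = k1 G r t v := by
    unfold k1
    rw [h3]
  have hk2 : (k2 G r (t + 1) v : ℝ) + 1 ≤ (k2 G r t v : ℝ) := by
    have h4 : k2 G r (t + 1) v < k2 G r t v := by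
      unfold k2
      refine Finset.sum_lt_sum (fun _ _ => Finset.card_le_card unp_succ_subset)
        ⟨w, mem_out.2 hv, ?_⟩
      rw [unp_succ_of hr hz hw, Finset.card_insert_of_notMem (not_mem_unp_succ hz)]
      omega
    exact_mod_cast h4
  have hm : ∀ o, mass (nxt P G r s z o) v = mass s v := by
    intro o
    simp only [mass, nxt, hvz, if_false]
  have hX : ∀ o, (nxt P G r s z o).X v = s.X v := by
    intro o
    simp only [nxt, hvz, false_and, if_false]
  have hwu : w ∈ unp G r t v := mem_unp.2 ⟨hv, by omega⟩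
  have hPsi : ∀ o, Psi G r (t + 1) (nxt P G r s z o) v =
      (Psi G r t s v - ∑ c, s.Y w c * s.Y v c) + ∑ c, upd P.κ (s.Y w) p o c * s.Y v c := by
    intro o
    unfold Psi
    rw [h3, ← Finset.sum_sub_distrib, ← Finset.sum_add_distrib]
    refine Finset.sum_congr rfl fun c _ => ?_
    have h4 : ∑ w' ∈ unp G r t v, (nxt P G r s z o).Y w' c =
        (∑ w' ∈ unp G r t v, s.Y w' c) - s.Y w c + upd P.κ (s.Y w) p o c := by
      rw [← Finset.add_sum_erase _ _ hwu, ← Finset.add_sum_erase _ (fun w' => s.Y w' c) hwu]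
      have h5 : ∑ w' ∈ (unp G r t v).erase w, (nxt P G r s z o).Y w' c =
          ∑ w' ∈ (unp G r t v).erase w, s.Y w' c := by
        refine Finset.sum_congr rfl fun w' hw' => ?_
        rw [Finset.mem_erase, mem_unp] at hw'
        have h6 : ¬ (G.Adj w' z ∧ r z < r w') := by
          rintro ⟨h7, _⟩
          exact hw'.1 (hG.no_c4 le_rfl hw'.2.1.1 h7 hv.1 hw.1 hvz')
        simp only [nxt, h6, if_false]
      rw [h5]
      have h7 : (nxt P G r s z o).Y w c = upd P.κ (s.Y w) p o c := by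
        simp only [nxt, hw, if_true, and_self, hp]
      rw [h7]
      ring
    rw [h4]
    have h8 : (nxt P G r s z o).Y v c = s.Y v c := by
      simp only [nxt, hvz, if_false]
    have h9 : (nxt P G r s z o).S v c = s.S v c := by
      simp only [nxt, hvz, false_and, if_false]
    rw [h8, h9]
    ring
  have hRG : ∀ c, s.Y w c ≤ P.κ → s.Y w c * s.Y v c ≤ 4 * P.κ ^ 2 / 2 := by
    intro c hc
    have h4 := mul_le_mul hc (hI.y1 v c) (hI.y0 v c) hκ0.le
    nlinarith
  have hT3 : ∑ o, wt p o * Real.exp (P.l2 * (Psi G r (t + 1) (nxt P G r s z o) v - P.B) +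
      P.l2 ^ 2 * P.Gb ^ 2 * (k1 G r t v : ℝ) +
      P.l2 ^ 2 * (4 * P.κ ^ 2) ^ 2 * (k2 G r (t + 1) v : ℝ)) ≤
      Real.exp (P.l2 * (Psi G r t s v - P.B) + P.l2 ^ 2 * P.Gb ^ 2 * (k1 G r t v : ℝ) +
      P.l2 ^ 2 * (4 * P.κ ^ 2) ^ 2 * (k2 G r t v : ℝ)) := by
    have h1 := upd_moment P.κ (4 * P.κ ^ 2) P.l2 (s.Y w) p (s.Y v) hp0 hp2 hps (hI.y0 w)
      (hI.y0 v) (by positivity) hRG (by rw [abs_of_nonneg hP.l20]; exact hP.l2κ)
    calc _ = Real.exp (P.l2 * (Psi G r t s v - ∑ c, s.Y w c * s.Y v c - P.B) +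
          P.l2 ^ 2 * P.Gb ^ 2 * (k1 G r t v : ℝ) +
          P.l2 ^ 2 * (4 * P.κ ^ 2) ^ 2 * (k2 G r (t + 1) v : ℝ)) *
          ∑ o, wt p o * Real.exp (P.l2 * ∑ c, upd P.κ (s.Y w) p o c * s.Y v c) := by
          rw [Finset.mul_sum]
          refine Finset.sum_congr rfl fun o _ => ?_
          rw [mul_left_comm, ← Real.exp_add, hPsi]
          congr 2
          ring
      _ ≤ Real.exp (P.l2 * (Psi G r t s v - ∑ c, s.Y w c * s.Y v c - P.B) +
          P.l2 ^ 2 * P.Gb ^ 2 * (k1 G r t v : ℝ) +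
          P.l2 ^ 2 * (4 * P.κ ^ 2) ^ 2 * (k2 G r (t + 1) v : ℝ)) *
          Real.exp (P.l2 * ∑ c, s.Y w c * s.Y v c + P.l2 ^ 2 * (4 * P.κ ^ 2) ^ 2) :=
          mul_le_mul_of_nonneg_left h1 (Real.exp_pos _).le
      _ ≤ _ := by
          rw [← Real.exp_add, Real.exp_le_exp]
          have h2 : P.l2 ^ 2 * (4 * P.κ ^ 2) ^ 2 * ((k2 G r (t + 1) v : ℝ) + 1) ≤
              P.l2 ^ 2 * (4 * P.κ ^ 2) ^ 2 * (k2 G r t v : ℝ) :=
            mul_le_mul_of_nonneg_left hk2 (by positivity)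
          linarith
  have hconst : ∀ a : ℝ, ∑ o, wt p o * a = a := by
    intro a
    rw [← Finset.sum_mul, hw1, one_mul]
  unfold ZZ
  simp only [hm, hX, hk]
  simp only [mul_add (wt p _), Finset.sum_add_distrib, hconst]
  linarith

theorem ZZ_step (hP : P.OK) (hr : Function.Injective r) (hI : Inv P G r t s) (hz : r z = t)
    (hG : HG G 4) (hd : ∀ v, (out G r v).card ≤ P.d) (v : V) :
    ∑ o, wt (pz P s z) o * ZZ P G r (t + 1) (nxt P G r s z o) v ≤ ZZ P G r t s v := by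
  by_cases h : aff G r z v
  · rcases h with h | ⟨w, h1, h2⟩
    · exact ZZ_step1 hP hr hI hz hG hd h
    · exact ZZ_step2 hP hr hI hz hG h1 h2
  · rw [Finset.sum_congr rfl fun o _ => by rw [ZZ_of_not_aff hr hz h], ← Finset.sum_mul, wt_sum,
      one_mul]

end Pool.GCH
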